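import Pool.Agent.H2.G1.Base

/-!
# T2, assembly
-/

open Finset

namespace Pool.Agent.H2.G1

open Pool.Agent.H95.G1 Pool.Agent.H95.TB

/-! ## Reach modulo integers -/

lemma Reach.trans' {f P s g Q} (h : Reach f P s g Q) : ∀ {t : ℝ} {k R}, Reach g Q t k R → Reach f P (s + t) k R := by
  induction h with
  | refl f P => intro t k R h'; rwa [zero_add]
  | step f P a h t g Q hr ih =>
    intro u k R h'
    have := Reach.step f P a h (t + u) k R (ih h')
    rwa [← add_assoc] at this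

lemma RM.refl (f : Fin 24) (P : Fin 5 → ℝ) : RM f P 0 f P := ⟨0, 0, Reach.refl f P, by simp⟩

lemma RM.trans {f P s g Q t k R} (h : RM f P s g Q) (h' : RM g Q t k R) : RM f P (s + t) k R := by
  obtain ⟨s', n, h1, h2⟩ := h
  obtain ⟨t', m, h3, h4⟩ := h'
  exact ⟨s' + t', n + m, Reach.trans' h1 h3, by rw [h2, h4]; push_cast; ring⟩

lemma RM.congr {f P s g Q t} (h : RM f P s g Q) (n : ℤ) (e : s = t + n) : RM f P t g Q := by
  obtain ⟨s', m, h1, h2⟩ := h
  exact ⟨s', n + m, h1, by rw [h2, e]; push_cast; ring⟩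

lemma RM.step {f P} (a : Fin 5) (h : P a = 0) : RM f P (th f a P) (gc f a) (tp a (gs f a) P) :=
  ⟨th f a P + 0, 0, Reach.step f P a h 0 _ _ (Reach.refl _ _), by simp⟩

lemma simTp {P : Fin 5 → ℝ} (hP : Sim P) {a : Fin 5} (b : Fin 5) (h : P a = 0) : Sim (tp a b P) := by
  refine ⟨fun s => ?_, ?_⟩
  · unfold tp
    rcases Fin.eq_self_or_eq_succAbove b s with rfl | ⟨j, rfl⟩
    · rw [Fin.insertNth_apply_same]
    · rw [Fin.insertNth_apply_succAbove]; exact hP.1 _
  · unfold tp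
    rw [Fin.sum_univ_succAbove _ b, Fin.insertNth_apply_same, zero_add]
    simp only [Fin.insertNth_apply_succAbove]
    have := hP.2
    rw [Fin.sum_univ_succAbove _ a, h, zero_add] at this
    exact this

/-! ## Data -/

lemma nv_1 (b : Bool) : nv b 1 = 1 := by unfold nv; rw [if_neg (by decide)]
lemma nv_2 (b : Bool) : nv b 2 = 1 := by unfold nv; rw [if_neg (by decide)]
lemma nv_0 (b : Bool) : nv b 0 = if b = true then 3 else 2 := by unfold nv; rw [if_pos rfl]
lemma nv_0_pos (b : Bool) : 2 ≤ nv b 0 := by rw [nv_0]; split_ifs <;> norm_num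

lemma w_eq (d : ED) : d.w = nv d.b 0 * d.be 0 + d.be 1 + d.be 2 := by
  unfold ED.w; rw [Fin.sum_univ_three, nv_1, nv_2]; ring

lemma w0_eq (d : ED) : d.w0 = nv d.b 0 * d.al 0 + d.al 1 + d.al 2 := by
  unfold ED.w0; rw [Fin.sum_univ_three, nv_1, nv_2]; ring

lemma Valid.w_nonneg {d : ED} (h : Valid d) : 0 ≤ d.w := by
  rw [w_eq]
  have := nv_0_pos d.b
  have h0 := h.be0 0; have h1 := h.be0 1; have h2 := h.be0 2
  have : 0 ≤ nv d.b 0 * d.be 0 := mul_nonneg (by linarith) h0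
  linarith

lemma Valid.w0_nonneg {d : ED} (h : Valid d) : 0 ≤ d.w0 := by
  rw [w0_eq]
  have := nv_0_pos d.b
  have h0 := h.al0 0; have h1 := h.al0 1; have h2 := h.al0 2
  have : 0 ≤ nv d.b 0 * d.al 0 := mul_nonneg (by linarith) h0
  linarith

lemma Valid.be_of_w {d : ED} (h : Valid d) (hw : d.w = 0) : ∀ y, d.be y = 0 := by
  have := nv_0_pos d.b
  have h0 := h.be0 0; have h1 := h.be0 1; have h2 := h.be0 2
  have h3 : 2 * d.be 0 ≤ nv d.b 0 * d.be 0 := mul_le_mul_of_nonneg_right this h0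
  rw [w_eq] at hw
  intro y
  fin_cases y
  · change d.be 0 = 0; linarith
  · change d.be 1 = 0; linarith
  · change d.be 2 = 0; linarith

lemma Valid.al_of_w0 {d : ED} (h : Valid d) (hw : d.w0 = 0) : ∀ y, d.al y = 0 := by
  have := nv_0_pos d.b
  have h0 := h.al0 0; have h1 := h.al0 1; have h2 := h.al0 2
  have h3 : 2 * d.al 0 ≤ nv d.b 0 * d.al 0 := mul_le_mul_of_nonneg_right this h0
  rw [w0_eq] at hw
  intro y
  fin_cases y
  · change d.al 0 = 0; linarith
  · change d.al 1 = 0; linarith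
  · change d.al 2 = 0; linarith

/-- the length of the word is positive if `p < 1` -/
lemma Valid.R_pos {d : ED} (h : Valid d) (hp : d.p < 1) : 0 < d.w0 + d.w / 2 := by
  have h1 := h.w_nonneg
  have h2 := h.w0_nonneg
  rcases h2.eq_or_lt with h3 | h3
  · rcases h1.eq_or_lt with h4 | h4
    · exfalso
      have e1 := h.be_of_w h4.symm
      have e2 := h.al_of_w0 h3.symm
      have := h.sum
      rw [e1, e1, e1, e2, e2, e2] at this
      linarith
    · linarith
  · linarith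

lemma Valid.p_of_w {d : ED} (h : Valid d) (hp : d.p < 1) (hw : d.w = 0) : d.p = 0 := by
  rcases h.p0.eq_or_lt with h1 | h1
  · exact h1.symm
  · exfalso
    have e1 := h.be_of_w hw
    have e2 := h.cone h1
    have := h.sum
    rw [e1, e1, e1, e2, e2, e2] at this
    linarith

lemma Valid.one {d : ED} (h : Valid d) (hp : d.p = 1) : (∀ y, d.al y = 0) ∧ ∀ y, d.be y = 0 := by
  have a0 := h.al0 0; have a1 := h.al0 1; have a2 := h.al0 2
  have b0 := h.be0 0; have b1 := h.be0 1; have b2 := h.be0 2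
  have hs := h.sum
  rw [hp] at hs
  constructor
  · intro y
    fin_cases y
    · change d.al 0 = 0; linarith
    · change d.al 1 = 0; linarith
    · change d.al 2 = 0; linarith
  · intro y
    fin_cases y
    · change d.be 0 = 0; linarith
    · change d.be 1 = 0; linarith
    · change d.be 2 = 0; linarith

lemma Valid.p_le {d : ED} (h : Valid d) : d.p ≤ 1 := by
  have a0 := h.al0 0; have a1 := h.al0 1; have a2 := h.al0 2
  have b0 := h.be0 0; have b1 := h.be0 1; have b2 := h.be0 2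
  have hs := h.sum
  linarith

lemma shD_shD (e e' : ℤ) (d : ED) : shD e (shD e' d) = shD (e + e') d := by
  unfold shD
  simp only [ED.mk.injEq, true_and]
  change d.T + (e' : ℝ) * d.w + (e : ℝ) * d.w = d.T + ((e + e' : ℤ) : ℝ) * d.w
  push_cast
  ring

lemma shD_zero (d : ED) : shD 0 d = d := by
  unfold shD
  simp

lemma Valid.shD {d : ED} (h : Valid d) (e : ℤ) : Valid (shD e d) :=
  ⟨h.al0, h.be0, h.p0, h.sum, h.chain, h.cone⟩

lemma hh_shD (e : ℤ) (d : ED) : hh (shD e d) = hh d := rfl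

lemma w_kD {k : ℕ} {d : ED} (hk : k ≤ 3) (ok : kOK k d) : (kD k d).w = d.w := by
  rw [w_eq, w_eq]
  interval_cases k
  · rfl
  · have := (ok (by norm_num)).2
    change d.be 0 = 0 at this
    change nv (!d.b) 0 * d.be 0 + d.be 1 + d.be 2 = nv d.b 0 * d.be 0 + d.be 1 + d.be 2
    rw [this]; ring
  · have := (ok (by norm_num)).2
    change d.be 2 = 0 at this
    change nv d.b 0 * d.be 0 + 0 + d.be 1 = nv d.b 0 * d.be 0 + d.be 1 + d.be 2
    rw [this]; ring
  · have := (ok (by norm_num)).2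
    change d.be 1 = 0 at this
    change nv d.b 0 * d.be 0 + d.be 2 + 0 = nv d.b 0 * d.be 0 + d.be 1 + d.be 2
    rw [this]; ring

lemma p_kD (k : ℕ) (d : ED) : (kD k d).p = d.p := by
  unfold kD
  split_ifs <;> rfl

lemma b_kD (k : ℕ) (d : ED) : (kD k d).b = kb k d.b := by
  unfold kD kb
  split_ifs <;> first | rfl | omega

lemma ka_shD (k : ℕ) (e : ℤ) (d : ED) : ka k (shD e d) = ka k d := rfl

lemma kD_shD {k : ℕ} (hk : k ≤ 3) (e : ℤ) {d : ED} (ok : kOK k d) : kD k (shD e d) = shD e (kD k d) := by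
  have hw := w_kD hk ok
  interval_cases k
  · rfl
  · change swD (shD e d) = shD e (swD d)
    change (swD d).w = d.w at hw
    unfold shD swD
    simp only [ED.mk.injEq, true_and]
    change d.T + (e : ℝ) * d.w = d.T + (e : ℝ) * (swD d).w
    rw [hw]
  · change rtD (shD e d) = shD e (rtD d)
    change (rtD d).w = d.w at hw
    unfold shD
    unfold rtD
    simp only [ED.mk.injEq, true_and]
    change d.T + (e : ℝ) * d.w + d.be 0 = d.T + d.be 0 + (e : ℝ) * (rtD d).w
    rw [hw]; ring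
  · change rpD (shD e d) = shD e (rpD d)
    change (rpD d).w = d.w at hw
    unfold shD
    unfold rpD
    simp only [ED.mk.injEq, true_and]
    change d.T + (e : ℝ) * d.w - d.be 0 = d.T - d.be 0 + (e : ℝ) * (rpD d).w
    rw [hw]; ring

lemma vec3_nonneg {a b c : ℝ} (ha : 0 ≤ a) (hb : 0 ≤ b) (hc : 0 ≤ c) (y : Fin 3) :
    0 ≤ (![a, b, c] : Fin 3 → ℝ) y := by
  fin_cases y
  exacts [ha, hb, hc]

lemma vec3_zero {a b c : ℝ} (ha : a = 0) (hb : b = 0) (hc : c = 0) (y : Fin 3) :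
    (![a, b, c] : Fin 3 → ℝ) y = 0 := by
  fin_cases y
  exacts [ha, hb, hc]

lemma Valid.kD {d : ED} (h : Valid d) {k : ℕ} (hk : k ≤ 3) (ok : kOK k d) : Valid (kD k d) := by
  interval_cases k
  · exact h
  · exact ⟨h.al0, h.be0, h.p0, h.sum, h.chain, h.cone⟩
  · obtain ⟨o1, o2⟩ := ok (by norm_num)
    change d.al 2 = 0 at o1
    change d.be 2 = 0 at o2
    change Valid (rtD d)
    refine ⟨vec3_nonneg (h.al0 0) le_rfl (h.al0 1), vec3_nonneg (h.be0 0) le_rfl (h.be0 1), h.p0, ?_, ?_, ?_⟩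
    · have := h.sum
      change d.al 0 + 0 + d.al 1 + (d.be 0 + 0 + d.be 1) + d.p = 1
      linarith
    · intro y y' h1 h2
      have c10 : 0 < d.al 1 → 0 < d.be 0 → False := fun u v => absurd (h.chain 1 0 u v) (by decide)
      fin_cases y <;> fin_cases y'
      · decide
      · decide
      · decide
      · exact absurd h1 (lt_irrefl _)
      · exact absurd h1 (lt_irrefl _)
      · exact absurd h1 (lt_irrefl _)
      · exact (c10 h1 h2).elim
      · exact absurd h2 (lt_irrefl _)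
      · decide
    · intro hp
      exact vec3_zero (h.cone hp 0) rfl (h.cone hp 1)
  · obtain ⟨o1, o2⟩ := ok (by norm_num)
    change d.al 1 = 0 at o1
    change d.be 1 = 0 at o2
    change Valid (rpD d)
    refine ⟨vec3_nonneg (h.al0 0) (h.al0 2) le_rfl, vec3_nonneg (h.be0 0) (h.be0 2) le_rfl, h.p0, ?_, ?_, ?_⟩
    · have := h.sum
      change d.al 0 + d.al 2 + 0 + (d.be 0 + d.be 2 + 0) + d.p = 1
      linarith
    · intro y y' h1 h2
      have c10 : 0 < d.al 2 → 0 < d.be 0 → False := fun u v => absurd (h.chain 2 0 u v) (by decide)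
      fin_cases y <;> fin_cases y'
      · decide
      · decide
      · decide
      · exact (c10 h1 h2).elim
      · decide
      · decide
      · exact absurd h1 (lt_irrefl _)
      · exact absurd h1 (lt_irrefl _)
      · decide
    · intro hp
      exact vec3_zero (h.cone hp 0) (h.cone hp 2) rfl

lemma hh_kD {k : ℕ} (hk : k ≤ 3) (d : ED) : hh (kD k d) = kh k (hh d) := by
  interval_cases k
  · rfl
  · rfl
  · change hh (rtD d) = ![hh d 0, 0, hh d 1]
    funext y
    unfold hh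
    fin_cases y
    · rfl
    · change (0 + 0) / (1 - d.p) = 0
      simp
    · rfl
  · change hh (rpD d) = ![hh d 0, hh d 2, 0]
    funext y
    unfold hh
    fin_cases y
    · rfl
    · rfl
    · change (0 + 0) / (1 - d.p) = 0
      simp

lemma hh_sim {d : ED} (h : Valid d) (hp : d.p < 1) : Sim (hh d) := by
  have h1 : 0 < 1 - d.p := by linarith
  refine ⟨fun y => div_nonneg (add_nonneg (h.al0 y) (h.be0 y)) h1.le, ?_⟩
  rw [Fin.sum_univ_three]
  unfold hh
  rw [← add_div, ← add_div, div_eq_one_iff_eq h1.ne']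
  have := h.sum
  change d.al 0 + d.be 0 + (d.al 1 + d.be 1) + (d.al 2 + d.be 2) = 1 - d.p
  linarith

lemma kOK_of_hh {k : ℕ} {d : ED} (h : Valid d) (hp : d.p < 1) (hz : hh d (kL k) = 0) : kOK k d := by
  intro _
  have h1 : 0 < 1 - d.p := by linarith
  have h2 : d.c (kL k) = 0 := by
    rcases div_eq_zero_iff.1 hz with h3 | h3
    · exact h3
    · exact absurd h3 h1.ne'
  have h3 := h.al0 (kL k)
  have h4 := h.be0 (kL k)
  change d.al (kL k) + d.be (kL k) = 0 at h2
  constructor <;> linarith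

lemma UEx0 (d : ED) : UE d 0 = ((d.p + d.w / 2 : ℝ) : ℂ) * ee (d.c 2 - ((1 - d.p) * d.T - d.M) / d.w) := rfl
lemma UEx1 (d : ED) : UE d 1 = ((d.w0 + d.w / 2 : ℝ) : ℂ) * (ee (3 * d.A) * (Vb d.b (hh d)).1) := rfl
lemma UEx2 (d : ED) : UE d 2 = ((d.w0 + d.w / 2 : ℝ) : ℂ) * (ee (4 * d.A) * (Vb d.b (hh d)).2) := rfl

lemma UE_conept {d : ED} (h : Valid d) (hp : d.p = 1) : UE d 0 = 1 ∧ UE d 1 = 0 ∧ UE d 2 = 0 := by
  obtain ⟨h1, h2⟩ := h.one hp
  have hw : d.w = 0 := by rw [w_eq, h2, h2, h2]; ring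
  have hw0 : d.w0 = 0 := by rw [w0_eq, h1, h1, h1]; ring
  have hc : d.c 2 = 0 := by change d.al 2 + d.be 2 = 0; rw [h1, h2]; ring
  refine ⟨?_, ?_, ?_⟩
  · rw [UEx0, hw, hp, hc]
    simp [ee_zero]
  · rw [UEx1, hw, hw0]; simp
  · rw [UEx2, hw, hw0]; simp

lemma ee_mul_int (k : ℕ) (n : ℤ) : ee (((k : ℕ) + 2 : ℝ) * n) = 1 := by
  have : ((k : ℕ) + 2 : ℝ) * (n : ℝ) = (((k + 2 : ℕ) * n : ℤ) : ℝ) := by push_cast; ring
  rw [this, ee_int]

lemma kd_le (f : Fin 24) (a : Fin 5) : kd f a ≤ 3 := by unfold kd; omega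

/-- the law of the section -/
theorem law (hT : TAB) (hV : VAL) (h1 : LAW1) (h2 : LAW2) : ∀ f a P, Sim P → P a = 0 → ∀ k : Fin 3,
    UE (ed f P) k = ee (((k : ℕ) + 2 : ℝ) * th f a P) * UE (ed (gc f a) (tp a (gs f a) P)) k := by
  intro f a P hP ha k
  obtain ⟨ok, e, t⟩ := hT f a P hP ha
  have v := (hV f P hP).1
  have v' := v.kD (kd_le f a) ok
  rw [h1 _ _ v (kd_le f a) ok k, h2 (ep f a) _ v' k, ← e, t, p_kD, ← mul_assoc, ← ee_add]
  congr 1
  have := ee_mul_int k (kn f a)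
  rw [mul_add (_ : ℝ) _ ((kn f a : ℤ) : ℝ), ee_add _ (((k : ℕ) + 2 : ℝ) * (kn f a : ℤ)), this, mul_one]
  congr 1
  ring

lemma reach_sim {f P s g Q} (h : Reach f P s g Q) : Sim P → Sim Q := by
  induction h with
  | refl f P => exact id
  | step f P a h t g Q hr ih => intro hP; exact ih (simTp hP _ h)

/-- the law along chains -/
lemma reach_law (hL : ∀ f a P, Sim P → P a = 0 → ∀ k : Fin 3,
    UE (ed f P) k = ee (((k : ℕ) + 2 : ℝ) * th f a P) * UE (ed (gc f a) (tp a (gs f a) P)) k)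
    {f P s g Q} (h : Reach f P s g Q) : Sim P → ∀ k : Fin 3,
    UE (ed f P) k = ee (((k : ℕ) + 2 : ℝ) * s) * UE (ed g Q) k := by
  induction h with
  | refl f P => intro _ k; rw [mul_zero, ee_zero, one_mul]
  | step f P a h t g Q hr ih =>
    intro hP k
    rw [hL f a P hP h k, ih (simTp hP _ h) k, ← mul_assoc, ← ee_add, mul_add]

lemma rm_law (hL : ∀ f a P, Sim P → P a = 0 → ∀ k : Fin 3,
    UE (ed f P) k = ee (((k : ℕ) + 2 : ℝ) * th f a P) * UE (ed (gc f a) (tp a (gs f a) P)) k)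
    {f P s g Q} (h : RM f P s g Q) (hP : Sim P) (k : Fin 3) :
    UE (ed f P) k = ee (((k : ℕ) + 2 : ℝ) * s) * UE (ed g Q) k := by
  obtain ⟨s', n, h1, h2⟩ := h
  rw [reach_law hL h1 hP k, h2, mul_add, ee_add, ee_mul_int, mul_one]

/-! ## Lifting -/

lemma lift1 (hT : TAB) (hC : CAN) (hE : LET) {f P} (hP : Sim P) (hp : (ed f P).p < 1) {k : ℕ} (k1 : 1 ≤ k)
    (k3 : k ≤ 3) (ok : kOK k (ed f P)) : ∃ g Q, Sim Q ∧ ∃ e : ℤ,
      RM f P (ka k (ed f P) - e * (ed f P).p / 2) g Q ∧ ed g Q = shD e (kD k (ed f P)) := by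
  obtain ⟨g, Q, hQ, cQ, e0, r0, d0⟩ := hC f P hP
  have hp' : (ed g Q).p = (ed f P).p := by rw [d0]; rfl
  obtain ⟨a, ha, hk⟩ := hE g Q hQ cQ (by rw [hp']; exact hp) k k1 k3 (by rw [d0]; exact ok)
  obtain ⟨_, t1, t2⟩ := hT g a Q hQ ha
  refine ⟨gc g a, tp a (gs g a) Q, simTp hQ _ ha, ep g a + e0, ?_, ?_⟩
  · refine (r0.trans (RM.step a ha)).congr (kn g a) ?_
    rw [t2, hk, hp', d0, ka_shD]
    push_cast
    ring
  · rw [t1, hk, d0, kD_shD k3 e0 ok, shD_shD]

lemma lift_chain (hT : TAB) (hV : VAL) (hC : CAN) (hE : LET) (h3 : LAW3) (h4 : LAW4) {b h s b' h'}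
    (hr : BR b h s b' h') : ∀ f P, Sim P → (ed f P).p < 1 → (ed f P).b = b → hh (ed f P) = h →
    ∃ g Q, Sim Q ∧ ∃ u : ℝ, RM f P u g Q ∧ (ed g Q).b = b' ∧ hh (ed g Q) = h' ∧ (ed g Q).p = (ed f P).p ∧
      ∃ m : ℤ, u + (ed g Q).A - (ed f P).A = s + m := by
  induction hr with
  | refl b h =>
    intro f P hP hp hb hh'
    exact ⟨f, P, hP, 0, RM.refl _ _, hb, hh', rfl, 0, by simp⟩
  | step b h k k1 k3 hz s b' h' hr ih =>
    intro f P hP hp hb hh'
    have v := (hV f P hP).1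
    have ok : kOK k (ed f P) := kOK_of_hh v hp (by rw [hh']; exact hz)
    obtain ⟨g, Q, hQ, e, r, d⟩ := lift1 hT hC hE hP hp k1 k3 ok
    have v' := v.kD k3 ok
    have hp1 : (ed g Q).p = (ed f P).p := by rw [d]; exact p_kD k _
    have hb1 : (ed g Q).b = kb k b := by rw [d, ← hb]; exact b_kD k _
    have hh1 : hh (ed g Q) = kh k h := by rw [d, hh_shD, hh_kD k3, hh']
    obtain ⟨g', Q', hQ', u, r', b1, hh2, p1, m, hm⟩ := ih g Q hQ (by rw [hp1]; exact hp) hb1 hh1
    refine ⟨g', Q', hQ', _, r.trans r', b1, hh2, p1.trans hp1, ?_⟩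
    obtain ⟨n, hn⟩ := h3 k (ed f P) v hp k3 ok
    have hA : (ed g Q).A = (kD k (ed f P)).A + e * (ed f P).p / 2 := by
      rw [d, h4 e _ v' (by rw [p_kD]; exact hp), p_kD]
    refine ⟨n + m, ?_⟩
    rw [hb, hh'] at hn
    push_cast
    linarith

/-- points with the same data -/
lemma fib (hS : SYMM) (hV : VAL) (hC : CAN) (hU : UNI) {f P g Q} (hP : Sim P) (hQ : Sim Q) (hp : (ed f P).p < 1)
    {e : ℤ} (hd : ed g Q = shD e (ed f P)) : RM f P (-(e * (ed f P).p / 2)) g Q := by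
  obtain ⟨f1, P1, hP1, c1, e1, r1, d1⟩ := hC f P hP
  obtain ⟨g1, Q1, hQ1, c2, e2, r2, d2⟩ := hC g Q hQ
  have hp' : (ed g Q).p = (ed f P).p := by rw [hd]; rfl
  have d3 : ed g1 Q1 = shD (e2 + e - e1) (ed f1 P1) := by
    rw [d2, hd, d1, shD_shD, shD_shD]; congr 1; ring
  obtain ⟨rfl, rfl, he⟩ := hU f1 P1 g1 Q1 hP1 hQ1 c1 c2 _ d3
  have r3 := r1.trans (hS _ _ _ _ _ hQ r2)
  rw [hp'] at r3
  refine r3.congr 0 ?_
  rcases he with he | he
  · have : (e1 : ℝ) = e2 + e := by
      have : e1 = e2 + e := by linarith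
      rw [this]; push_cast; ring
    rw [this]; push_cast; ring
  · have hw : (ed f P).w = 0 := by rw [d1] at he; exact he
    have := (hV f P hP).1.p_of_w hp hw
    rw [this]; simp

/-! ## Injectivity -/

lemma norm_V {b : Bool} {h : Fin 3 → ℝ} : (b = true → ‖(Vb b h).1‖ = 1) ∧ (b = false → ‖(Vb b h).2‖ = 1) := by
  constructor
  · rintro rfl; rw [Vt]; exact norm_one
  · rintro rfl; rw [Vf]; exact norm_one

lemma ee_cancel {a b : ℂ} {r : ℝ} (h : 0 < r) (e : (r : ℂ) * a = r * b) : a = b :=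
  mul_left_cancel₀ (by exact_mod_cast h.ne') e

theorem inj (hT : TAB) (hS : SYMM) (hV : VAL) (hB : BINJ) (h1 : LAW1) (h2 : LAW2) (h3 : LAW3) (h4 : LAW4) (hC : CAN)
    (hU : UNI) (hE : LET) (hO : CONE) (hM : MAG) : ∀ f P g Q, Sim P → Sim Q → ∀ t c : ℝ, 0 < c →
    (∀ k : Fin 3, UE (ed g Q) k = (c : ℂ) * ee (((k : ℕ) + 2 : ℝ) * t) * UE (ed f P) k) →
    ∃ (s : ℝ) (n : ℤ), Reach f P s g Q ∧ s + t = n := by
  intro f P g Q hP hQ t c hc hU'
  have hL := law hT hV h1 h2
  obtain ⟨v, _, _⟩ := hV f P hP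
  obtain ⟨v', t0', t1'⟩ := hV g Q hQ
  have u0 := hU' 0
  have u1 := hU' 1
  have u2 := hU' 2
  have k0 : (((0 : Fin 3) : ℕ) + 2 : ℝ) = 2 := by norm_num
  have k1 : (((1 : Fin 3) : ℕ) + 2 : ℝ) = 3 := by norm_num
  have k2 : (((2 : Fin 3) : ℕ) + 2 : ℝ) = 4 := by norm_num
  rw [k0] at u0
  rw [k1] at u1
  rw [k2] at u2
  -- it suffices to find a chain modulo integers
  suffices hsuff : ∃ s : ℝ, RM f P s g Q ∧ ∃ n : ℤ, s + t = n by
    obtain ⟨s, ⟨s', m, r, hs⟩, n, hn⟩ := hsuff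
    exact ⟨s', m + n, r, by rw [hs]; push_cast; linarith⟩
  have nonz : ∀ d : ED, Valid d → d.p < 1 → UE d 1 = 0 → UE d 2 = 0 → False := by
    intro d hd hp z1 z2
    have hR := hd.R_pos hp
    have hR' : ((d.w0 + d.w / 2 : ℝ) : ℂ) ≠ 0 := by exact_mod_cast hR.ne'
    rw [UEx1] at z1
    rw [UEx2] at z2
    have w1 := (mul_eq_zero.1 z1).resolve_left hR'
    have w2 := (mul_eq_zero.1 z2).resolve_left hR'
    have w1' := (mul_eq_zero.1 w1).resolve_left (ee_ne _)
    have w2' := (mul_eq_zero.1 w2).resolve_left (ee_ne _)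
    rcases Bool.eq_false_or_eq_true d.b with hb | hb
    · have := (norm_V (h := hh d)).1 hb
      rw [w1', norm_zero] at this
      exact zero_ne_one this
    · have := (norm_V (h := hh d)).2 hb
      rw [w2', norm_zero] at this
      exact zero_ne_one this
  rcases v.p_le.eq_or_lt with hp | hp
  · rcases v'.p_le.eq_or_lt with hp' | hp'
    · -- both points are the cone point
      rw [(UE_conept v hp).1, (UE_conept v' hp').1, mul_one] at u0
      have hn := congrArg norm u0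
      rw [norm_one, norm_mul, norm_ee, mul_one, Complex.norm_real, Real.norm_of_nonneg hc.le] at hn
      rw [← hn, Complex.ofReal_one, one_mul] at u0
      obtain ⟨n, hn⟩ := ee_eq_one u0.symm
      refine ⟨((-n : ℤ) : ℝ) / 2, hO f g P Q hP hQ hp hp' (-n), 0, ?_⟩
      push_cast
      linarith
    · exfalso
      obtain ⟨_, z1, z2⟩ := UE_conept v hp
      exact nonz _ v' hp' (by rw [u1, z1, mul_zero]) (by rw [u2, z2, mul_zero])
  · rcases v'.p_le.eq_or_lt with hp' | hp'
    · exfalso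
      obtain ⟨_, z1, z2⟩ := UE_conept v' hp'
      have hcc : (c : ℂ) ≠ 0 := by exact_mod_cast hc.ne'
      rw [z1] at u1
      rw [z2] at u2
      refine nonz _ v hp ?_ ?_
      · exact (mul_eq_zero.1 u1.symm).resolve_left (mul_ne_zero hcc (ee_ne _))
      · exact (mul_eq_zero.1 u2.symm).resolve_left (mul_ne_zero hcc (ee_ne _))
    · -- the base points
      have hR := v.R_pos hp
      have hR' := v'.R_pos hp'
      have hRc : (((ed g Q).w0 + (ed g Q).w / 2 : ℝ) : ℂ) ≠ 0 := by exact_mod_cast hR'.ne'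
      set R := (ed f P).w0 + (ed f P).w / 2 with hRdef
      set R' := (ed g Q).w0 + (ed g Q).w / 2 with hRdef'
      have b1 : (Vb (ed g Q).b (hh (ed g Q))).1 = ((c * R / R' : ℝ) : ℂ) * ee (3 * (t + (ed f P).A - (ed g Q).A)) *
          (Vb (ed f P).b (hh (ed f P))).1 := by
        rw [UEx1, UEx1] at u1
        apply mul_left_cancel₀ (mul_ne_zero hRc (ee_ne (3 * (ed g Q).A)))
        rw [show 3 * (t + (ed f P).A - (ed g Q).A) = 3 * t + 3 * (ed f P).A + -(3 * (ed g Q).A) by ring, ee_add, ee_add]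
        have e5 : ee (3 * (ed g Q).A) * ee (-(3 * (ed g Q).A)) = 1 := by rw [← ee_add, add_neg_cancel, ee_zero]
        rw [← hRdef, ← hRdef'] at u1
        calc (R' : ℂ) * ee (3 * (ed g Q).A) * (Vb (ed g Q).b (hh (ed g Q))).1 = 
            (R' : ℂ) * (ee (3 * (ed g Q).A) * (Vb (ed g Q).b (hh (ed g Q))).1) := by ring
          _ = c * ee (3 * t) * ((R : ℂ) * (ee (3 * (ed f P).A) * (Vb (ed f P).b (hh (ed f P))).1)) := u1
          _ = (c * R : ℂ) * (ee (3 * t) * ee (3 * (ed f P).A)) * (Vb (ed f P).b (hh (ed f P))).1 *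
              (ee (3 * (ed g Q).A) * ee (-(3 * (ed g Q).A))) := by rw [e5]; ring
          _ = _ := by push_cast; field_simp
      have b2 : (Vb (ed g Q).b (hh (ed g Q))).2 = ((c * R / R' : ℝ) : ℂ) * ee (4 * (t + (ed f P).A - (ed g Q).A)) *
          (Vb (ed f P).b (hh (ed f P))).2 := by
        rw [UEx2, UEx2] at u2
        apply mul_left_cancel₀ (mul_ne_zero hRc (ee_ne (4 * (ed g Q).A)))
        rw [show 4 * (t + (ed f P).A - (ed g Q).A) = 4 * t + 4 * (ed f P).A + -(4 * (ed g Q).A) by ring, ee_add, ee_add]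
        have e5 : ee (4 * (ed g Q).A) * ee (-(4 * (ed g Q).A)) = 1 := by rw [← ee_add, add_neg_cancel, ee_zero]
        rw [← hRdef, ← hRdef'] at u2
        calc (R' : ℂ) * ee (4 * (ed g Q).A) * (Vb (ed g Q).b (hh (ed g Q))).2 = 
            (R' : ℂ) * (ee (4 * (ed g Q).A) * (Vb (ed g Q).b (hh (ed g Q))).2) := by ring
          _ = c * ee (4 * t) * ((R : ℂ) * (ee (4 * (ed f P).A) * (Vb (ed f P).b (hh (ed f P))).2)) := u2
          _ = (c * R : ℂ) * (ee (4 * t) * ee (4 * (ed f P).A)) * (Vb (ed f P).b (hh (ed f P))).2 *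
              (ee (4 * (ed g Q).A) * ee (-(4 * (ed g Q).A))) := by rw [e5]; ring
          _ = _ := by push_cast; field_simp
      obtain ⟨s, n, hbr, hsn⟩ := hB _ _ _ _ _ _ (hh_sim v hp) (hh_sim v' hp') (by positivity) b1 b2
      obtain ⟨g', Q', hQ', u, r, eb, eh, epp, m, hm⟩ := lift_chain hT hV hC hE h3 h4 hbr f P hP hp rfl rfl
      obtain ⟨w, t0, t1⟩ := hV g' Q' hQ'
      have hpw : (ed g' Q').p < 1 := by rw [epp]; exact hp
      -- the law
      have hR2 : ∀ k : Fin 3, UE (ed g Q) k = (c : ℂ) * ee (((k : ℕ) + 2 : ℝ) * (t + u)) * UE (ed g' Q') k := by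
        intro k
        rw [hU' k, rm_law hL r hP k, mul_add, ee_add]
        ring
      have q0 := hR2 0
      have q1 := hR2 1
      have q2 := hR2 2
      rw [k0] at q0
      rw [k1] at q1
      rw [k2] at q2
      -- norms
      have n0 : (ed g Q).p + (ed g Q).w / 2 = c * ((ed g' Q').p + (ed g' Q').w / 2) := by
        have := congrArg norm q0
        rw [UEx0, UEx0, norm_mul, norm_mul, norm_mul, norm_mul, norm_ee, norm_ee, norm_ee, mul_one, mul_one, mul_one,
          Complex.norm_real, Complex.norm_real, Complex.norm_real, Real.norm_of_nonneg hc.le,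
          Real.norm_of_nonneg (by have := v'.p0; have := v'.w_nonneg; positivity),
          Real.norm_of_nonneg (by have := w.p0; have := w.w_nonneg; positivity)] at this
        exact this
      have n1 : (ed g Q).w0 + (ed g Q).w / 2 = c * ((ed g' Q').w0 + (ed g' Q').w / 2) := by
        have hRw := w.R_pos hpw
        rcases Bool.eq_false_or_eq_true (ed g Q).b with hb | hb
        · have := congrArg norm q1
          rw [UEx1, UEx1, norm_mul, norm_mul, norm_mul, norm_mul, norm_mul, norm_mul, norm_ee, norm_ee, norm_ee, 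
            (norm_V).1 hb, (norm_V).1 (eb.trans hb), mul_one, mul_one, mul_one, mul_one,
            Complex.norm_real, Complex.norm_real, Complex.norm_real, Real.norm_of_nonneg hc.le,
            Real.norm_of_nonneg hR'.le, Real.norm_of_nonneg hRw.le] at this
          exact this
        · have := congrArg norm q2
          rw [UEx2, UEx2, norm_mul, norm_mul, norm_mul, norm_mul, norm_mul, norm_mul, norm_ee, norm_ee, norm_ee, 
            (norm_V).2 hb, (norm_V).2 (eb.trans hb), mul_one, mul_one, mul_one, mul_one,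
            Complex.norm_real, Complex.norm_real, Complex.norm_real, Real.norm_of_nonneg hc.le,
            Real.norm_of_nonneg hR'.le, Real.norm_of_nonneg hRw.le] at this
          exact this
      obtain ⟨mp, mal, mbe, mc⟩ := hM (ed g' Q') (ed g Q) c w v' eb hpw hp' eh hc n0 n1
      have htu : t + u = (ed g Q).A - (ed g' Q').A + ((n + m : ℤ) : ℝ) := by push_cast; linarith
      have ew : (ed g Q).w = (ed g' Q').w := by rw [w_eq, w_eq, mbe, eb]
      have ec : ∀ y, (ed g Q).c y = (ed g' Q').c y := by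
        intro y
        change (ed g Q).al y + (ed g Q).be y = (ed g' Q').al y + (ed g' Q').be y
        rw [mal, mbe]
      have eM : (ed g Q).M = (ed g' Q').M := by
        unfold ED.M
        rw [mbe, ← eb]
        congr 1
        funext y
        rw [ec]
      have eA : (ed g Q).A - (ed g' Q').A = (ed g' Q').p * (((ed g Q).T - (ed g' Q').T) / (ed g' Q').w) / 2 := by
        unfold ED.A ED.Phi
        rw [eM, mp, ew, ← eb, ec]
        rw [sub_div (ed g Q).T, sub_div, sub_div]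
        ring
      -- the windows
      obtain ⟨E, hE1, hE2⟩ : ∃ E : ℤ, (ed g Q).T = (ed g' Q').T + E * (ed g' Q').w ∧
          ((ed g' Q').p * (((ed g Q).T - (ed g' Q').T) / (ed g' Q').w) / 2 = E * (ed g' Q').p / 2) := by
        rcases w.w_nonneg.eq_or_lt with hw | hw
        · refine ⟨0, ?_, ?_⟩
          · rw [← hw] at t1
            rw [ew, ← hw] at t1'
            push_cast
            linarith
          · rw [← hw]; simp
        · have hne : (((ed g' Q').p + (ed g' Q').w / 2 : ℝ) : ℂ) ≠ 0 := by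
            have := w.p0
            exact_mod_cast (by positivity : (ed g' Q').p + (ed g' Q').w / 2 ≠ 0)
          rw [UEx0, UEx0, mc, mp, ew, ec, eM, Complex.ofReal_one, one_mul] at q0
          have q3 : ee ((ed g' Q').c 2 - ((1 - (ed g' Q').p) * (ed g Q).T - (ed g' Q').M) / (ed g' Q').w) =
              ee (2 * (t + u) + ((ed g' Q').c 2 - ((1 - (ed g' Q').p) * (ed g' Q').T - (ed g' Q').M) / (ed g' Q').w)) := by
            apply mul_left_cancel₀ hne
            rw [q0, ee_add]; ring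
          obtain ⟨k, hk⟩ := (ee_eq_iff _ _).1 q3
          rw [htu, eA] at hk
          have hx : ((ed g Q).T - (ed g' Q').T) / (ed g' Q').w = ((-(2 * (n + m) + k) : ℤ) : ℝ) := by
            have ring1 : ∀ T : ℝ, ((1 - (ed g' Q').p) * T - (ed g' Q').M) / (ed g' Q').w =
              (1 - (ed g' Q').p) * (T / (ed g' Q').w) - (ed g' Q').M / (ed g' Q').w := fun T => by ring
            rw [ring1, ring1, sub_div] at hk
            rw [sub_div]
            push_cast at hk ⊢
            linarith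
          refine ⟨-(2 * (n + m) + k), ?_, ?_⟩
          · rw [← hx]
            field_simp
            ring
          · rw [hx]; ring
      have hd : ed g Q = shD E (ed g' Q') := by
        have : ∀ d d' : ED, d.b = d'.b → d.al = d'.al → d.be = d'.be → d.p = d'.p → d.T = d'.T → d = d' := by
          rintro ⟨⟩ ⟨⟩ h1 h2 h3 h4 h5
          simp only at h1 h2 h3 h4 h5
          subst h1 h2 h3 h4 h5
          rfl
        exact this _ _ eb.symm mal mbe mp hE1
      have rr := r.trans (fib hS hV hC hU hQ' hQ hpw hd)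
      refine ⟨_, rr, n + m, ?_⟩
      push_cast at htu ⊢
      linarith

/-! ## Surjectivity -/

theorem surj (hV : VAL) (hR : REAL) (hB : BSURJ) (hM : MAGS) : ∀ v : Fin 3 → ℂ, v ≠ 0 → ∃ f P, Sim P ∧
    ∃ t c : ℝ, 0 < c ∧ ∀ k : Fin 3, v k = (c : ℂ) * ee (((k : ℕ) + 2 : ℝ) * t) * UE (ed f P) k := by
  intro v hv
  have k0 : (((0 : Fin 3) : ℕ) + 2 : ℝ) = 2 := by norm_num
  have k1 : (((1 : Fin 3) : ℕ) + 2 : ℝ) = 3 := by norm_num
  have k2 : (((2 : Fin 3) : ℕ) + 2 : ℝ) = 4 := by norm_num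
  by_cases hz : v 1 = 0 ∧ v 2 = 0
  · -- the cone point
    obtain ⟨z1, z2⟩ := hz
    have z0 : v 0 ≠ 0 := by
      intro z0
      apply hv
      funext k
      fin_cases k
      exacts [z0, z1, z2]
    obtain ⟨a, ha⟩ := polar (v 0)
    have hP : Sim (Pi.single (4 : Fin 5) (1 : ℝ) : Fin 5 → ℝ) := by
      refine ⟨fun s => ?_, by simp⟩
      by_cases hs : s = 4
      · rw [hs, Pi.single_eq_same]; exact zero_le_one
      · rw [Pi.single_eq_of_ne hs]
    have hp : (ed 0 (Pi.single (4 : Fin 5) (1 : ℝ))).p = 1 := by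
      change ∑ s, (if tb 0 s % 8 = 3 then (Pi.single (4 : Fin 5) (1 : ℝ) : Fin 5 → ℝ) s else 0) = 1
      rw [Fin.sum_univ_five]
      have e4 : tb 0 4 % 8 = 3 := by decide
      rw [if_pos e4, Pi.single_eq_same, Pi.single_eq_of_ne (by decide), Pi.single_eq_of_ne (by decide),
        Pi.single_eq_of_ne (by decide), Pi.single_eq_of_ne (by decide)]
      simp
    obtain ⟨o0, o1, o2⟩ := UE_conept (hV 0 _ hP).1 hp
    refine ⟨0, _, hP, a / 2, ‖v 0‖, norm_pos_iff.2 z0, fun k => ?_⟩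
    fin_cases k
    · change v 0 = (‖v 0‖ : ℂ) * ee ((((0 : Fin 3) : ℕ) + 2 : ℝ) * (a / 2)) * UE _ 0
      rw [k0, o0, mul_one, show 2 * (a / 2) = a by ring]
      exact ha
    · change v 1 = _ * _ * UE _ 1
      rw [o1, mul_zero, z1]
    · change v 2 = _ * _ * UE _ 2
      rw [o2, mul_zero, z2]
  · have hz' : v 1 ≠ 0 ∨ v 2 ≠ 0 := by
      by_contra h
      push Not at h
      exact hz h
    obtain ⟨b, h, hh', t, l, hl, e1, e2⟩ := hB (v 1) (v 2) hz'
    obtain ⟨a, ha⟩ := polar (v 0)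
    have hr : 0 ≤ ‖v 0‖ / l := div_nonneg (norm_nonneg _) hl.le
    obtain ⟨d, vd, db, dp, dT, dh, dR, dr⟩ := hM b h (‖v 0‖ / l) hh' hr
    set R := d.w0 + d.w / 2 with hRd
    -- the data with window position `T`
    let dd : ℝ → ED := fun T => { b := d.b, al := d.al, be := d.be, p := d.p, T := T }
    have vdd : ∀ T, Valid (dd T) := fun T => ⟨vd.al0, vd.be0, vd.p0, vd.sum, vd.chain, vd.cone⟩
    have hA : ∀ T, (dd T).A = (dd 0).A + d.p * (T / d.w) / 2 := by
      intro T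
      change (if d.b = true then 2 / 3 else 3 / 4) * d.c 2 + d.p * ((T - d.M / (1 - d.p)) / d.w +
        (if d.b = true then 1 / 3 else 1 / 2) * (d.c 2 / (1 - d.p))) / 2 =
        (if d.b = true then 2 / 3 else 3 / 4) * d.c 2 + d.p * ((0 - d.M / (1 - d.p)) / d.w +
        (if d.b = true then 1 / 3 else 1 / 2) * (d.c 2 / (1 - d.p))) / 2 + d.p * (T / d.w) / 2
      ring
    suffices hs : ∃ T, 0 ≤ T ∧ T ≤ d.w ∧ v 0 = ((l / R : ℝ) : ℂ) * ee (2 * (t - (dd T).A)) * UE (dd T) 0 by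
      obtain ⟨T, T0, T1, hs⟩ := hs
      obtain ⟨f, P, hP, hfP⟩ := hR (dd T) (vdd T) T0 T1
      have hRc : (R : ℂ) ≠ 0 := by exact_mod_cast dR.ne'
      refine ⟨f, P, hP, t - (dd T).A, l / R, div_pos hl dR, fun k => ?_⟩
      rw [hfP]
      fin_cases k
      · change v 0 = _ * ee ((((0 : Fin 3) : ℕ) + 2 : ℝ) * (t - (dd T).A)) * UE (dd T) 0
        rw [k0]; exact hs
      · change v 1 = _ * ee ((((1 : Fin 3) : ℕ) + 2 : ℝ) * (t - (dd T).A)) * UE (dd T) 1
        rw [k1, UEx1]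
        change v 1 = ((l / R : ℝ) : ℂ) * ee (3 * (t - (dd T).A)) * ((R : ℂ) * (ee (3 * (dd T).A) * (Vb d.b (hh d)).1))
        rw [e1, db, dh, mul_sub, sub_eq_add_neg, ee_add]
        have e5 : ee (-(3 * (dd T).A)) * ee (3 * (dd T).A) = 1 := by rw [← ee_add, neg_add_cancel, ee_zero]
        calc (l : ℂ) * ee (3 * t) * (Vb b h).1 = (l : ℂ) * ee (3 * t) * (Vb b h).1 *
              (ee (-(3 * (dd T).A)) * ee (3 * (dd T).A)) := by rw [e5, mul_one]
          _ = _ := by push_cast; field_simp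
      · change v 2 = _ * ee ((((2 : Fin 3) : ℕ) + 2 : ℝ) * (t - (dd T).A)) * UE (dd T) 2
        rw [k2, UEx2]
        change v 2 = ((l / R : ℝ) : ℂ) * ee (4 * (t - (dd T).A)) * ((R : ℂ) * (ee (4 * (dd T).A) * (Vb d.b (hh d)).2))
        rw [e2, db, dh, mul_sub, sub_eq_add_neg, ee_add]
        have e5 : ee (-(4 * (dd T).A)) * ee (4 * (dd T).A) = 1 := by rw [← ee_add, neg_add_cancel, ee_zero]
        calc (l : ℂ) * ee (4 * t) * (Vb b h).2 = (l : ℂ) * ee (4 * t) * (Vb b h).2 *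
              (ee (-(4 * (dd T).A)) * ee (4 * (dd T).A)) := by rw [e5, mul_one]
          _ = _ := by push_cast; field_simp
    by_cases hv0 : v 0 = 0
    · refine ⟨0, le_rfl, vd.w_nonneg, ?_⟩
      rw [hv0, norm_zero, zero_div, zero_mul] at dr
      rw [hv0, UEx0]
      change 0 = _ * (((d.p + d.w / 2 : ℝ) : ℂ) * _)
      rw [dr]
      simp
    · have hn : 0 < ‖v 0‖ := norm_pos_iff.2 hv0
      have hpw : 0 < d.p + d.w / 2 := by rw [dr]; positivity
      have hw : 0 < d.w := by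
        rcases vd.w_nonneg.eq_or_lt with hw | hw
        · have := vd.p_of_w dp hw.symm
          rw [← hw, this] at hpw
          simp at hpw
        · exact hw
      set x := Int.fract (2 * t - 2 * (dd 0).A + d.c 2 + d.M / d.w - a) with hx
      have x0 := Int.fract_nonneg (2 * t - 2 * (dd 0).A + d.c 2 + d.M / d.w - a)
      have x1 := Int.fract_lt_one (2 * t - 2 * (dd 0).A + d.c 2 + d.M / d.w - a)
      rw [← hx] at x0 x1
      have x2 : 2 * t - 2 * (dd 0).A + d.c 2 + d.M / d.w - a =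
          x + (⌊2 * t - 2 * (dd 0).A + d.c 2 + d.M / d.w - a⌋ : ℝ) := by
        rw [hx]; exact (Int.fract_add_floor _).symm
      refine ⟨x * d.w, mul_nonneg x0 hw.le, by nlinarith, ?_⟩
      rw [UEx0, hA]
      change v 0 = ((l / R : ℝ) : ℂ) * ee (2 * (t - ((dd 0).A + d.p * (x * d.w / d.w) / 2))) *
        (((d.p + d.w / 2 : ℝ) : ℂ) * ee (d.c 2 - ((1 - d.p) * (x * d.w) - d.M) / d.w))
      have e3 : ee (2 * (t - ((dd 0).A + d.p * (x * d.w / d.w) / 2))) *
          ee (d.c 2 - ((1 - d.p) * (x * d.w) - d.M) / d.w) = ee a := by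
        rw [← ee_add, ee_eq_iff]
        refine ⟨⌊2 * t - 2 * (dd 0).A + d.c 2 + d.M / d.w - a⌋, ?_⟩
        have e4 : x * d.w / d.w = x := by field_simp
        have e5 : ((1 - d.p) * (x * d.w) - d.M) / d.w = (1 - d.p) * x - d.M / d.w := by field_simp
        rw [e4, e5]
        linarith
      rw [dr]
      calc v 0 = (‖v 0‖ : ℂ) * ee a := ha
        _ = (‖v 0‖ : ℂ) * (ee (2 * (t - ((dd 0).A + d.p * (x * d.w / d.w) / 2))) *
          ee (d.c 2 - ((1 - d.p) * (x * d.w) - d.M) / d.w)) := by rw [e3]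
        _ = _ := by
          have hRc : (R : ℂ) ≠ 0 := by exact_mod_cast dR.ne'
          have hlc : (l : ℂ) ≠ 0 := by exact_mod_cast hl.ne'
          push_cast
          field_simp

/-- the section -/
theorem sec_of (hT : TAB) (hS : SYMM) (hV : VAL) (hR : REAL) (h1 : LAW1) (h2 : LAW2) (h3 : LAW3) (h4 : LAW4) (hC : CAN)
    (hU : UNI) (hE : LET) (hO : CONE) (hM : MAG) (hM' : MAGS) (hK : CONT) : Nonempty Sec :=
  ⟨{ U := fun f P => UE (ed f P)
     cont := hK.1
     ne := hK.2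
     law := law hT hV h1 h2
     inj := inj hT hS hV binj h1 h2 h3 h4 hC hU hE hO hM
     surj := surj hV hR bsurj hM' }⟩

end Pool.Agent.H2.G1
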