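import Pool.Agent.H2.G1.Stmts

/-!
# T2, module BASE
-/

open Finset

namespace Pool.Agent.H2.G1

open Pool.Agent.H95.G1 Pool.Agent.H95.TB

lemma ee_eq_iff (s t : ℝ) : ee s = ee t ↔ ∃ n : ℤ, s = t + n := e_eq_iff s t

lemma ee_eq_one {t : ℝ} (h : ee t = 1) : ∃ n : ℤ, t = n := by
  rw [← ee_zero, ee_eq_iff] at h
  obtain ⟨n, hn⟩ := h
  exact ⟨n, by rw [hn, zero_add]⟩

lemma φ_mul (r y t : ℝ) : ee t * φ r y = φ r (y + t * r) := (φ_add_mul r y t).symm

lemma Vt (h : Fin 3 → ℝ) : Vb true h = (1, φ (h 1 + h 2) (h 2 / 3)) := by unfold Vb; rw [if_pos rfl]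
lemma Vf (h : Fin 3 → ℝ) : Vb false h = (φ (h 1 + h 2) (-(h 2 / 4)), 1) := by
  unfold Vb; rw [if_neg (by decide)]

lemma sim3 {h : Fin 3 → ℝ} (hs : Sim h) : 0 ≤ h 0 ∧ 0 ≤ h 1 ∧ 0 ≤ h 2 ∧ h 0 + h 1 + h 2 = 1 :=
  ⟨hs.1 0, hs.1 1, hs.1 2, by rw [← hs.2, Fin.sum_univ_three]⟩

lemma ext3 {h h' : Fin 3 → ℝ} (h0 : h 0 = h' 0) (h1 : h 1 = h' 1) (h2 : h 2 = h' 2) : h = h' := by
  funext i
  fin_cases i
  exacts [h0, h1, h2]

lemma BR.one {b : Bool} {h : Fin 3 → ℝ} (k : ℕ) (k1 : 1 ≤ k) (k3 : k ≤ 3) (hz : h (kL k) = 0) :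
    BR b h (ba k b h) (kb k b) (kh k h) := by
  have := BR.step b h k k1 k3 hz 0 (kb k b) (kh k h) (BR.refl _ _)
  rwa [add_zero] at this

lemma BR.rot {b : Bool} {h : Fin 3 → ℝ} (hz : h 2 = 0) :
    BR b h (if b = true then -(1 / 3) else 3 / 4) b ![h 0, 0, h 1] :=
  BR.one 2 (by norm_num) (by norm_num) hz

lemma BR.rop {b : Bool} {h : Fin 3 → ℝ} (hz : h 1 = 0) :
    BR b h (if b = true then 1 / 3 else -(3 / 4)) b ![h 0, h 2, 0] :=
  BR.one 3 (by norm_num) (by norm_num) hz

lemma BR.cast {b : Bool} {h : Fin 3 → ℝ} {s : ℝ} {b' : Bool} {h' h'' : Fin 3 → ℝ} (hr : BR b h s b' h')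
    (e : h' = h'') : BR b h s b' h'' := e ▸ hr

/-- the case of equal triangles `true` -/
lemma binj_tt {h h' : Fin 3 → ℝ} {t l : ℝ} (hs : Sim h) (hs' : Sim h') (hl : 0 < l)
    (e1 : (Vb true h').1 = l * ee (3 * t) * (Vb true h).1) (e2 : (Vb true h').2 = l * ee (4 * t) * (Vb true h).2) :
    ∃ (s : ℝ) (n : ℤ), BR true h s true h' ∧ s + t = n := by
  obtain ⟨a0, a1, a2, a3⟩ := sim3 hs
  obtain ⟨b0, b1, b2, b3⟩ := sim3 hs'
  rw [Vt, Vt] at e1 e2
  simp only [mul_one] at e1 e2
  have hl1 : l = 1 := by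
    have := congrArg norm e1
    rw [norm_one, norm_mul, norm_ee, mul_one, Complex.norm_real, Real.norm_of_nonneg hl.le] at this
    exact this.symm
  subst hl1
  rw [Complex.ofReal_one, one_mul] at e1 e2
  obtain ⟨n, hn⟩ := ee_eq_one e1.symm
  have hr : h' 1 + h' 2 = h 1 + h 2 := by
    have := congrArg norm e2
    rwa [norm_mul, norm_ee, one_mul, norm_φ, norm_φ, abs_of_nonneg (by linarith), abs_of_nonneg (by linarith)] at this
  have ht : t = n / 3 := by linarith
  rcases (by linarith : 0 ≤ h 1 + h 2).eq_or_lt with h0 | h0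
  · have c1 : h 1 = 0 := by linarith
    have c2 : h 2 = 0 := by linarith
    have eh : h' = h := ext3 (by linarith) (by linarith) (by linarith)
    have er : (![h 0, 0, h 1] : Fin 3 → ℝ) = h' := ext3 (by simp [eh]) (by simp [eh, c1]) (by simp [eh, c1, c2])
    have er' : (![h 0, h 2, 0] : Fin 3 → ℝ) = h' := ext3 (by simp [eh]) (by simp [eh, c1, c2]) (by simp [eh, c2])
    have hm : n % 3 = 0 ∨ n % 3 = 1 ∨ n % 3 = 2 := by omega
    rcases hm with hm | hm | hm
    · refine ⟨0, n / 3, (BR.refl _ _).cast eh.symm, ?_⟩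
      have : n = 3 * (n / 3) := by omega
      rw [ht]
      have h3 : (n : ℝ) = 3 * ((n / 3 : ℤ) : ℝ) := by exact_mod_cast this
      linarith
    · refine ⟨_, n / 3, (BR.rot c2).cast er, ?_⟩
      have : n = 3 * (n / 3) + 1 := by omega
      rw [ht, if_pos rfl]
      have h3 : (n : ℝ) = 3 * ((n / 3 : ℤ) : ℝ) + 1 := by exact_mod_cast this
      linarith
    · refine ⟨_, n / 3 + 1, (BR.rop c1).cast er', ?_⟩
      have : n = 3 * (n / 3) + 2 := by omega
      rw [ht, if_pos rfl]
      have h3 : (n : ℝ) = 3 * ((n / 3 : ℤ) : ℝ) + 2 := by exact_mod_cast this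
      push_cast
      linarith
  · rw [φ_mul, hr] at e2
    obtain ⟨m, hm⟩ := φ_inj h0 e2
    have e3 : h' 2 = h 2 + ((4 * n + 3 * m : ℤ) : ℝ) * (h 1 + h 2) := by
      push_cast
      rw [ht] at hm
      linear_combination 3 * hm
    rcases int_cases h0 e3 b2 (by linarith) a2 (by linarith) with c | ⟨c, c'⟩ | ⟨c, c'⟩
    · have hq : 4 * n + 3 * m = 0 := by
        have : ((4 * n + 3 * m : ℤ) : ℝ) * (h 1 + h 2) = 0 := by linarith
        rcases mul_eq_zero.1 this with h4 | h4
        · exact_mod_cast h4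
        · linarith
      refine ⟨0, n / 3, (BR.refl _ _).cast (ext3 (by linarith) (by linarith) (by linarith)), ?_⟩
      have : n = 3 * (n / 3) := by omega
      rw [ht]
      have h3 : (n : ℝ) = 3 * ((n / 3 : ℤ) : ℝ) := by exact_mod_cast this
      linarith
    · have hq : 4 * n + 3 * m = 1 := by
        have : (((4 * n + 3 * m : ℤ) : ℝ) - 1) * (h 1 + h 2) = 0 := by linarith
        rcases mul_eq_zero.1 this with h4 | h4
        · have h5 : ((4 * n + 3 * m : ℤ) : ℝ) = 1 := by linarith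
          exact_mod_cast h5
        · linarith
      refine ⟨_, n / 3, (BR.rot c').cast (ext3 (by simp; linarith) (by simp; linarith) (by simp; linarith)), ?_⟩
      have : n = 3 * (n / 3) + 1 := by omega
      rw [ht, if_pos rfl]
      have h3 : (n : ℝ) = 3 * ((n / 3 : ℤ) : ℝ) + 1 := by exact_mod_cast this
      linarith
    · have hq : 4 * n + 3 * m = -1 := by
        have : (((4 * n + 3 * m : ℤ) : ℝ) + 1) * (h 1 + h 2) = 0 := by linarith
        rcases mul_eq_zero.1 this with h4 | h4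
        · have h5 : ((4 * n + 3 * m : ℤ) : ℝ) = -1 := by linarith
          exact_mod_cast h5
        · linarith
      refine ⟨_, n / 3 + 1, (BR.rop (by linarith)).cast (ext3 (by simp; linarith) (by simp; linarith)
        (by simp; linarith)), ?_⟩
      have : n = 3 * (n / 3) + 2 := by omega
      rw [ht, if_pos rfl]
      have h3 : (n : ℝ) = 3 * ((n / 3 : ℤ) : ℝ) + 2 := by exact_mod_cast this
      push_cast
      linarith

/-- the case of equal triangles `false` -/
lemma binj_ff {h h' : Fin 3 → ℝ} {t l : ℝ} (hs : Sim h) (hs' : Sim h') (hl : 0 < l)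
    (e1 : (Vb false h').1 = l * ee (3 * t) * (Vb false h).1) (e2 : (Vb false h').2 = l * ee (4 * t) * (Vb false h).2) :
    ∃ (s : ℝ) (n : ℤ), BR false h s false h' ∧ s + t = n := by
  obtain ⟨a0, a1, a2, a3⟩ := sim3 hs
  obtain ⟨b0, b1, b2, b3⟩ := sim3 hs'
  rw [Vf, Vf] at e1 e2
  simp only [mul_one] at e1 e2
  have hl1 : l = 1 := by
    have := congrArg norm e2
    rw [norm_one, norm_mul, norm_ee, mul_one, Complex.norm_real, Real.norm_of_nonneg hl.le] at this
    exact this.symm
  subst hl1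
  rw [Complex.ofReal_one, one_mul] at e1 e2
  obtain ⟨n, hn⟩ := ee_eq_one e2.symm
  have hr : h' 1 + h' 2 = h 1 + h 2 := by
    have := congrArg norm e1
    rwa [norm_mul, norm_ee, one_mul, norm_φ, norm_φ, abs_of_nonneg (by linarith), abs_of_nonneg (by linarith)] at this
  have ht : t = n / 4 := by linarith
  rcases (by linarith : 0 ≤ h 1 + h 2).eq_or_lt with h0 | h0
  · have c1 : h 1 = 0 := by linarith
    have c2 : h 2 = 0 := by linarith
    have eh : h' = h := ext3 (by linarith) (by linarith) (by linarith)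
    have er : (![h 0, 0, h 1] : Fin 3 → ℝ) = h' := ext3 (by simp [eh]) (by simp [eh, c1]) (by simp [eh, c1, c2])
    have er' : (![h 0, h 2, 0] : Fin 3 → ℝ) = h' := ext3 (by simp [eh]) (by simp [eh, c1, c2]) (by simp [eh, c2])
    have hm : n % 4 = 0 ∨ n % 4 = 1 ∨ n % 4 = 2 ∨ n % 4 = 3 := by omega
    rcases hm with hm | hm | hm | hm
    · refine ⟨0, n / 4, (BR.refl _ _).cast eh.symm, ?_⟩
      have : n = 4 * (n / 4) := by omega
      rw [ht]
      have h3 : (n : ℝ) = 4 * ((n / 4 : ℤ) : ℝ) := by exact_mod_cast this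
      linarith
    · refine ⟨_, n / 4 + 1, (BR.rot c2).cast er, ?_⟩
      have : n = 4 * (n / 4) + 1 := by omega
      rw [ht, if_neg (by decide)]
      have h3 : (n : ℝ) = 4 * ((n / 4 : ℤ) : ℝ) + 1 := by exact_mod_cast this
      push_cast
      linarith
    · have r1 : BR false h (3 / 4) false h := by
        have := (BR.rot (b := false) c2).cast (er.trans eh)
        rwa [if_neg (by decide)] at this
      have r2 : BR false h (ba 2 false h + 3 / 4) false h := by
        refine BR.step false h 2 (by norm_num) (by norm_num) c2 _ _ _ ?_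
        have e : kh 2 h = h := er.trans eh
        rw [e]
        exact r1
      refine ⟨_, n / 4 + 2, r2.cast eh.symm, ?_⟩
      have : n = 4 * (n / 4) + 2 := by omega
      have h3 : (n : ℝ) = 4 * ((n / 4 : ℤ) : ℝ) + 2 := by exact_mod_cast this
      rw [ht]
      have e : ba 2 false h = 3 / 4 := by unfold ba; simp
      rw [e]
      push_cast
      linarith
    · refine ⟨_, n / 4, (BR.rop c1).cast er', ?_⟩
      have : n = 4 * (n / 4) + 3 := by omega
      rw [ht, if_neg (by decide)]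
      have h3 : (n : ℝ) = 4 * ((n / 4 : ℤ) : ℝ) + 3 := by exact_mod_cast this
      linarith
  · rw [φ_mul, hr] at e1
    obtain ⟨m, hm⟩ := φ_inj h0 e1
    have e3 : h' 2 = h 2 + ((-(3 * n + 4 * m) : ℤ) : ℝ) * (h 1 + h 2) := by
      push_cast
      rw [ht] at hm
      linear_combination (-4) * hm
    rcases int_cases h0 e3 b2 (by linarith) a2 (by linarith) with c | ⟨c, c'⟩ | ⟨c, c'⟩
    · have hq : -(3 * n + 4 * m) = 0 := by
        have : ((-(3 * n + 4 * m) : ℤ) : ℝ) * (h 1 + h 2) = 0 := by linarith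
        rcases mul_eq_zero.1 this with h4 | h4
        · exact_mod_cast h4
        · linarith
      refine ⟨0, n / 4, (BR.refl _ _).cast (ext3 (by linarith) (by linarith) (by linarith)), ?_⟩
      have : n = 4 * (n / 4) := by omega
      rw [ht]
      have h3 : (n : ℝ) = 4 * ((n / 4 : ℤ) : ℝ) := by exact_mod_cast this
      linarith
    · have hq : -(3 * n + 4 * m) = 1 := by
        have : (((-(3 * n + 4 * m) : ℤ) : ℝ) - 1) * (h 1 + h 2) = 0 := by linarith
        rcases mul_eq_zero.1 this with h4 | h4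
        · have h5 : ((-(3 * n + 4 * m) : ℤ) : ℝ) = 1 := by linarith
          exact_mod_cast h5
        · linarith
      refine ⟨_, n / 4 + 1, (BR.rot c').cast (ext3 (by simp; linarith) (by simp; linarith) (by simp; linarith)), ?_⟩
      have : n = 4 * (n / 4) + 1 := by omega
      rw [ht, if_neg (by decide)]
      have h3 : (n : ℝ) = 4 * ((n / 4 : ℤ) : ℝ) + 1 := by exact_mod_cast this
      push_cast
      linarith
    · have hq : -(3 * n + 4 * m) = -1 := by
        have : (((-(3 * n + 4 * m) : ℤ) : ℝ) + 1) * (h 1 + h 2) = 0 := by linarith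
        rcases mul_eq_zero.1 this with h4 | h4
        · have h5 : ((-(3 * n + 4 * m) : ℤ) : ℝ) = -1 := by linarith
          exact_mod_cast h5
        · linarith
      refine ⟨_, n / 4, (BR.rop (by linarith)).cast (ext3 (by simp; linarith) (by simp; linarith)
        (by simp; linarith)), ?_⟩
      have : n = 4 * (n / 4) + 3 := by omega
      rw [ht, if_neg (by decide)]
      have h3 : (n : ℝ) = 4 * ((n / 4 : ℤ) : ℝ) + 3 := by exact_mod_cast this
      linarith

/-- the two triangles at the common edge -/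
lemma V_swap {h : Fin 3 → ℝ} (hr : h 1 + h 2 = 1) : (Vb true h).1 = ee (3 * (h 2 / 12)) * (Vb false h).1 ∧
    (Vb true h).2 = ee (4 * (h 2 / 12)) * (Vb false h).2 := by
  rw [Vt, Vf, hr, φ_one, φ_one]
  simp only [mul_one]
  rw [← ee_add]
  constructor
  · rw [← ee_zero]; congr 1; ring
  · congr 1; ring

lemma V_swap' {h : Fin 3 → ℝ} (hr : h 1 + h 2 = 1) : (Vb false h).1 = ee (3 * (-(h 2 / 12))) * (Vb true h).1 ∧
    (Vb false h).2 = ee (4 * (-(h 2 / 12))) * (Vb true h).2 := by
  obtain ⟨e1, e2⟩ := V_swap hr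
  rw [e1, e2, ← mul_assoc, ← mul_assoc, ← ee_add, ← ee_add]
  constructor
  · rw [show 3 * (-(h 2 / 12)) + 3 * (h 2 / 12) = 0 by ring, ee_zero, one_mul]
  · rw [show 4 * (-(h 2 / 12)) + 4 * (h 2 / 12) = 0 by ring, ee_zero, one_mul]

theorem binj : BINJ := by
  intro b h b' h' t l hs hs' hl e1 e2
  obtain ⟨a0, a1, a2, a3⟩ := sim3 hs
  obtain ⟨b0, b1, b2, b3⟩ := sim3 hs'
  cases b <;> cases b'
  · exact binj_ff hs hs' hl e1 e2
  · -- false to true
    have n1 := congrArg norm e1
    have n2 := congrArg norm e2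
    rw [norm_mul, norm_mul, norm_ee, mul_one, Complex.norm_real, Real.norm_of_nonneg hl.le, Vt, Vf] at n1 n2
    simp only [norm_one, norm_φ, mul_one] at n1 n2
    rw [abs_of_nonneg (by linarith)] at n1 n2
    have hl1 : l = 1 := by
      apply le_antisymm
      · linarith
      · rw [n1]
        have : l * (h 1 + h 2) ≤ l * 1 := mul_le_mul_of_nonneg_left (by linarith) hl.le
        linarith
    have hr : h 1 + h 2 = 1 := by rw [hl1, one_mul] at n1; exact n1.symm
    obtain ⟨s1, s2⟩ := V_swap' hr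
    have f1 : (Vb true h').1 = l * ee (3 * (t + -(h 2 / 12))) * (Vb true h).1 := by
      rw [e1, s1, mul_add, ee_add]; ring
    have f2 : (Vb true h').2 = l * ee (4 * (t + -(h 2 / 12))) * (Vb true h).2 := by
      rw [e2, s2, mul_add, ee_add]; ring
    obtain ⟨s, n, hb, hn⟩ := binj_tt hs hs' hl f1 f2
    refine ⟨_, n, BR.step false h 1 le_rfl (by norm_num) (by change h 0 = 0; linarith) s true h' hb, ?_⟩
    have e : ba 1 false h = -(h 2 / 12) := by unfold ba; simp
    rw [e, ← hn]; ring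
  · -- true to false
    have n1 := congrArg norm e1
    have n2 := congrArg norm e2
    rw [norm_mul, norm_mul, norm_ee, mul_one, Complex.norm_real, Real.norm_of_nonneg hl.le, Vt, Vf] at n1 n2
    simp only [norm_one, norm_φ, mul_one] at n1 n2
    rw [abs_of_nonneg (by linarith)] at n1 n2
    have hl1 : l = 1 := by
      apply le_antisymm
      · linarith
      · rw [n2]
        have : l * (h 1 + h 2) ≤ l * 1 := mul_le_mul_of_nonneg_left (by linarith) hl.le
        linarith
    have hr : h 1 + h 2 = 1 := by rw [hl1, one_mul] at n2; exact n2.symm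
    obtain ⟨s1, s2⟩ := V_swap hr
    have f1 : (Vb false h').1 = l * ee (3 * (t + h 2 / 12)) * (Vb false h).1 := by
      rw [e1, s1, mul_add, ee_add]; ring
    have f2 : (Vb false h').2 = l * ee (4 * (t + h 2 / 12)) * (Vb false h).2 := by
      rw [e2, s2, mul_add, ee_add]; ring
    obtain ⟨s, n, hb, hn⟩ := binj_ff hs hs' hl f1 f2
    refine ⟨_, n, BR.step true h 1 le_rfl (by norm_num) (by change h 0 = 0; linarith) s false h' hb, ?_⟩
    have e : ba 1 true h = h 2 / 12 := by unfold ba; simp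
    rw [e, ← hn]; ring
  · exact binj_tt hs hs' hl e1 e2

/-- polar form with an angle -/
lemma polar (z : ℂ) : ∃ a : ℝ, z = (‖z‖ : ℂ) * ee a := by
  obtain ⟨t, _, _, h⟩ := exists_polar z
  rcases eq_or_ne z 0 with rfl | hz
  · exact ⟨0, by simp⟩
  · refine ⟨t, ?_⟩
    have hn : ‖z‖ ≠ 0 := norm_ne_zero_iff.2 hz
    conv_lhs => rw [h, φ_eq]
    rw [mul_div_assoc, div_self hn, mul_one]

theorem bsurj : BSURJ := by
  intro x y hxy
  obtain ⟨al, hal⟩ := polar x
  obtain ⟨be, hbe⟩ := polar y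
  rcases le_or_gt ‖y‖ ‖x‖ with hle | hlt
  · -- triangle `true`
    have hx : 0 < ‖x‖ := by
      rcases hxy with h | h
      · exact norm_pos_iff.2 h
      · exact lt_of_lt_of_le (norm_pos_iff.2 h) hle
    set r := ‖y‖ / ‖x‖ with hr
    have r0 : 0 ≤ r := div_nonneg (norm_nonneg _) hx.le
    have r1 : r ≤ 1 := div_le_one_of_le₀ hle hx.le
    have hyr : ‖y‖ = ‖x‖ * r := by rw [hr]; field_simp
    set δ := Int.fract (be - 4 * al / 3) with hδ
    have d0 := Int.fract_nonneg (be - 4 * al / 3)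
    have d1 := Int.fract_lt_one (be - 4 * al / 3)
    rw [← hδ] at d0 d1
    have d2 : be - 4 * al / 3 = δ + (⌊be - 4 * al / 3⌋ : ℝ) := by
      rw [hδ]; exact (Int.fract_add_floor _).symm
    set k := ⌊3 * δ⌋ with hk
    have k0 : (k : ℝ) ≤ 3 * δ := Int.floor_le _
    have k1 : 3 * δ < k + 1 := Int.lt_floor_add_one _
    set u := 3 * δ - k with hu
    have u0 : 0 ≤ u := by linarith
    have u1 : u ≤ 1 := by linarith
    have ur0 : 0 ≤ u * r := mul_nonneg u0 r0
    have ur1 : u * r ≤ r := by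
      have := mul_le_mul_of_nonneg_right u1 r0
      linarith
    refine ⟨true, ![1 - r, r - u * r, u * r], ⟨?_, ?_⟩, (al + k) / 3, ‖x‖, hx, ?_, ?_⟩
    · intro s; fin_cases s <;> simp <;> linarith
    · rw [Fin.sum_univ_three]; simp
    · rw [Vt]
      simp only [mul_one]
      rw [show 3 * ((al + (k : ℝ)) / 3) = al + k by ring, ee_add_int]
      exact hal
    · rw [Vt]
      simp only [Matrix.cons_val_one, Matrix.cons_val]
      rw [show r - u * r + u * r = r by ring, φ_eq]
      rcases r0.eq_or_lt with h0 | h0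
      · have : ‖y‖ = 0 := by rw [hyr, ← h0, mul_zero]
        rw [← h0, norm_eq_zero.1 this]
        simp
      · have e : u * r / 3 / r = u / 3 := by field_simp
        rw [e]
        have e2 : ee (4 * ((al + k) / 3)) * ee (u / 3) = ee be := by
          rw [← ee_add, ee_eq_iff]
          refine ⟨k - ⌊be - 4 * al / 3⌋, ?_⟩
          rw [hu]
          push_cast
          linarith
        calc y = (‖y‖ : ℂ) * ee be := hbe
          _ = (‖x‖ : ℂ) * (ee (4 * ((al + k) / 3)) * ee (u / 3)) * (r : ℂ) := by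
              rw [e2, hyr]; push_cast; ring
          _ = _ := by ring
  · -- triangle `false`
    have hy : 0 < ‖y‖ := lt_of_le_of_lt (norm_nonneg _) hlt
    set r := ‖x‖ / ‖y‖ with hr
    have r0 : 0 ≤ r := div_nonneg (norm_nonneg _) hy.le
    have r1 : r ≤ 1 := div_le_one_of_le₀ hlt.le hy.le
    have hxr : ‖x‖ = ‖y‖ * r := by rw [hr]; field_simp
    set δ := Int.fract (3 * be / 4 - al) with hδ
    have d0 := Int.fract_nonneg (3 * be / 4 - al)
    have d1 := Int.fract_lt_one (3 * be / 4 - al)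
    rw [← hδ] at d0 d1
    have d2 : 3 * be / 4 - al = δ + (⌊3 * be / 4 - al⌋ : ℝ) := by
      rw [hδ]; exact (Int.fract_add_floor _).symm
    set k := ⌊4 * δ⌋ with hk
    have k0 : (k : ℝ) ≤ 4 * δ := Int.floor_le _
    have k1 : 4 * δ < k + 1 := Int.lt_floor_add_one _
    set u := 4 * δ - k with hu
    have u0 : 0 ≤ u := by linarith
    have u1 : u ≤ 1 := by linarith
    have ur0 : 0 ≤ u * r := mul_nonneg u0 r0
    have ur1 : u * r ≤ r := by
      have := mul_le_mul_of_nonneg_right u1 r0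
      linarith
    refine ⟨false, ![1 - r, r - u * r, u * r], ⟨?_, ?_⟩, (be + k) / 4, ‖y‖, hy, ?_, ?_⟩
    · intro s; fin_cases s <;> simp <;> linarith
    · rw [Fin.sum_univ_three]; simp
    · rw [Vf]
      simp only [Matrix.cons_val_one, Matrix.cons_val]
      rw [show r - u * r + u * r = r by ring, φ_eq]
      rcases r0.eq_or_lt with h0 | h0
      · have : ‖x‖ = 0 := by rw [hxr, ← h0, mul_zero]
        rw [← h0, norm_eq_zero.1 this]
        simp
      · have e : -(u * r / 4) / r = -(u / 4) := by field_simp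
        rw [e]
        have e2 : ee (3 * ((be + k) / 4)) * ee (-(u / 4)) = ee al := by
          rw [← ee_add, ee_eq_iff]
          refine ⟨k + ⌊3 * be / 4 - al⌋, ?_⟩
          rw [hu]
          push_cast
          linarith
        calc x = (‖x‖ : ℂ) * ee al := hal
          _ = (‖y‖ : ℂ) * (ee (3 * ((be + k) / 4)) * ee (-(u / 4))) * (r : ℂ) := by
              rw [e2, hxr]; push_cast; ring
          _ = _ := by ring
    · rw [Vf]
      simp only [mul_one]
      rw [show 4 * ((be + (k : ℝ)) / 4) = be + k by ring, ee_add_int]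
      exact hbe

end Pool.Agent.H2.G1
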