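import Pool.Agent.H2.G1.Asm
import Pool.Agent.H21.G1.Tab
import Pool.Agent.H21.G1.Can
import Pool.Agent.H21.G1.Uni
import Pool.Agent.H21.G1.Let
import Pool.Agent.H45.G1.Cone
import Pool.Agent.H52.G1.Mag
import Pool.Agent.H85.G1.Law
import Pool.Agent.H85.G1.Symm
import Pool.Agent.H43.G1.Real
import Pool.Agent.H30.G1.Cont

/-!
# T2: the section of the words complex with 24 cells
-/

namespace Pool.Agent.H2.G1

open Pool.Agent.H95.G1 Pool.Agent.H95.TB

theorem sec_of' (hK : CONT) : Nonempty Sec :=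
  sec_of Pool.Agent.H21.G1.tab symm Pool.Agent.H43.G1.val Pool.Agent.H43.G1.real law1 law2
    law3 law4 Pool.Agent.H21.G1.can' Pool.Agent.H21.G1.uni
    Pool.Agent.H21.G1.let_ Pool.Agent.H45.G1.cone mag mags hK

/-- **T2.** -/
theorem sec : Nonempty Sec := sec_of' Pool.Agent.H30.G1.cont

end Pool.Agent.H2.G1
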