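import Pool.Agent.H95.G1.EDefs

/-!
# T2: statements of the modules
-/

open Finset

namespace Pool.Agent.H2.G1

open Pool.Agent.H95.G1 Pool.Agent.H95.TB

/-! ## Reach modulo integers -/

/-- chains of gluings, the total angle is considered modulo 1 -/
def RM (f : Fin 24) (P : Fin 5 → ℝ) (s : ℝ) (g : Fin 24) (Q : Fin 5 → ℝ) : Prop :=
  ∃ (s' : ℝ) (n : ℤ), Reach f P s' g Q ∧ s' = s + n

/-- SYMM -/
def SYMM : Prop := ∀ f P s g Q, Sim P → RM f P s g Q → RM g Q (-s) f P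

/-! ## The kinds of the gluings -/

/-- kind + 4 * (shift + 1) + 12 * integer, kind: 0 = same data, 1 = swap, 2 = rot, 3 = inverse of rot -/
def kdL : List (List ℕ) := [
  [4, 23, 20, 6, 4],
  [4, 5, 6, 4, 4],
  [4, 6, 4, 19, 4],
  [4, 5, 19, 4, 4],
  [0, 4, 19, 2, 4],
  [4, 4, 23, 8, 6],
  [4, 4, 4, 6, 4],
  [4, 4, 6, 4, 19],
  [4, 4, 4, 19, 4],
  [4, 0, 4, 19, 2],
  [5, 4, 4, 6, 8],
  [5, 4, 0, 4, 4],
  [5, 19, 4, 0, 8],
  [4, 23, 20, 6, 4],
  [4, 5, 6, 4, 4],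
  [4, 2, 4, 19, 4],
  [0, 5, 19, 4, 4],
  [4, 4, 23, 8, 6],
  [4, 4, 4, 6, 4],
  [4, 4, 2, 4, 19],
  [4, 0, 4, 19, 4],
  [5, 4, 4, 6, 8],
  [5, 4, 0, 4, 4],
  [5, 19, 4, 0, 8]]

def kdp (f : Fin 24) (a : Fin 5) : ℕ := (kdL.getD f.1 []).getD a.1 0
/-- the kind of a gluing -/
def kd (f : Fin 24) (a : Fin 5) : ℕ := kdp f a % 4
/-- the shift of a gluing -/
def ep (f : Fin 24) (a : Fin 5) : ℤ := ((kdp f a / 4 % 3 : ℕ) : ℤ) - 1
/-- the integer of a gluing -/
def kn (f : Fin 24) (a : Fin 5) : ℤ := ((kdp f a / 12 : ℕ) : ℤ)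

/-- moving the window around `ε` times -/
noncomputable def shD (ε : ℤ) (d : ED) : ED := { b := d.b, al := d.al, be := d.be, p := d.p, T := d.T + ε * d.w }

/-- exchange of the two triangles -/
def swD (d : ED) : ED := { b := !d.b, al := d.al, be := d.be, p := d.p, T := d.T }

/-- the letter 1 becomes the letter 2 -/
noncomputable def rtD (d : ED) : ED :=
  { b := d.b, al := ![d.al 0, 0, d.al 1], be := ![d.be 0, 0, d.be 1], p := d.p, T := d.T + d.be 0 }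

/-- the letter 2 becomes the letter 1 -/
noncomputable def rpD (d : ED) : ED :=
  { b := d.b, al := ![d.al 0, d.al 2, 0], be := ![d.be 0, d.be 2, 0], p := d.p, T := d.T - d.be 0 }

noncomputable def kD (k : ℕ) (d : ED) : ED :=
  if k = 0 then d else if k = 1 then swD d else if k = 2 then rtD d else rpD d

/-- the letter that has to vanish -/
def kL (k : ℕ) : Fin 3 := if k = 1 then 0 else if k = 2 then 2 else 1

/-- the steps which are possible for the data `d` -/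
def kOK (k : ℕ) (d : ED) : Prop := k ≠ 0 → d.al (kL k) = 0 ∧ d.be (kL k) = 0

/-- the angle of a step -/
noncomputable def ka (k : ℕ) (d : ED) : ℝ :=
  if k = 2 then (if d.b = true then 2 / 3 else 3 / 4) * d.c 0 + d.p / 2
  else if k = 3 then -((if d.b = true then 2 / 3 else 3 / 4) * d.c 0 + d.p / 2) else 0

/-- TAB: every gluing is a step followed by a shift -/
def TAB : Prop := ∀ f a P, Sim P → P a = 0 →
  kOK (kd f a) (ed f P) ∧ ed (gc f a) (tp a (gs f a) P) = shD (ep f a) (kD (kd f a) (ed f P)) ∧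
  th f a P = ka (kd f a) (ed f P) - ep f a * (ed f P).p / 2 + kn f a

/-! ## Valid data -/

/-- valid data (the window position is not restricted) -/
structure Valid (d : ED) : Prop where
  al0 : ∀ y, 0 ≤ d.al y
  be0 : ∀ y, 0 ≤ d.be y
  p0 : 0 ≤ d.p
  sum : d.al 0 + d.al 1 + d.al 2 + (d.be 0 + d.be 1 + d.be 2) + d.p = 1
  chain : ∀ y y', 0 < d.al y → 0 < d.be y' → y ≤ y'
  cone : 0 < d.p → ∀ y, d.al y = 0

/-- VAL -/
def VAL : Prop := ∀ f P, Sim P → Valid (ed f P) ∧ 0 ≤ (ed f P).T ∧ (ed f P).T ≤ (ed f P).w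

/-- REAL: all valid data come from points of cells -/
def REAL : Prop := ∀ d, Valid d → 0 ≤ d.T → d.T ≤ d.w → ∃ f P, Sim P ∧ ed f P = d

/-! ## Base -/

/-- the base angle of a step -/
noncomputable def ba (k : ℕ) (b : Bool) (h : Fin 3 → ℝ) : ℝ :=
  if k = 0 then 0
  else if k = 1 then (if b = true then h 2 / 12 else -(h 2 / 12))
  else if k = 2 then (if b = true then -(1 / 3) else 3 / 4) else (if b = true then 1 / 3 else -(3 / 4))

/-- the step on the triangles -/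
def kb (k : ℕ) (b : Bool) : Bool := if k = 1 then !b else b
def kh (k : ℕ) (h : Fin 3 → ℝ) : Fin 3 → ℝ :=
  if k ≤ 1 then h else if k = 2 then ![h 0, 0, h 1] else ![h 0, h 2, 0]

/-- chains of steps on the triangles -/
inductive BR : Bool → (Fin 3 → ℝ) → ℝ → Bool → (Fin 3 → ℝ) → Prop
  | refl (b : Bool) (h : Fin 3 → ℝ) : BR b h 0 b h
  | step (b : Bool) (h : Fin 3 → ℝ) (k : ℕ) (k1 : 1 ≤ k) (k3 : k ≤ 3) (hz : h (kL k) = 0) (s : ℝ) (b' : Bool)
      (h' : Fin 3 → ℝ) (hr : BR (kb k b) (kh k h) s b' h') : BR b h (ba k b h + s) b' h'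

/-- BINJ -/
def BINJ : Prop := ∀ b h b' h' (t l : ℝ), Sim h → Sim h' → 0 < l →
  (Vb b' h').1 = l * ee (3 * t) * (Vb b h).1 → (Vb b' h').2 = l * ee (4 * t) * (Vb b h).2 →
  ∃ (s : ℝ) (n : ℤ), BR b h s b' h' ∧ s + t = n

/-- BSURJ -/
def BSURJ : Prop := ∀ x y : ℂ, (x ≠ 0 ∨ y ≠ 0) → ∃ b h, Sim h ∧ ∃ t l : ℝ, 0 < l ∧
  x = l * ee (3 * t) * (Vb b h).1 ∧ y = l * ee (4 * t) * (Vb b h).2

/-! ## Laws of the section -/

/-- LAW1: steps -/
def LAW1 : Prop := ∀ k d, Valid d → k ≤ 3 → kOK k d → ∀ j : Fin 3, UE d j = ee (((j : ℕ) + 2 : ℝ) * ka k d) * UE (kD k d) j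

/-- LAW2: shifts -/
def LAW2 : Prop := ∀ (e : ℤ) d, Valid d → ∀ j : Fin 3, UE d j = ee (((j : ℕ) + 2 : ℝ) * (-(e * d.p / 2))) * UE (shD e d) j

/-- the normalised column sums -/
noncomputable def hh (d : ED) (y : Fin 3) : ℝ := d.c y / (1 - d.p)

/-- LAW3: relation of the angles of a step with the base angle -/
def LAW3 : Prop := ∀ k d, Valid d → d.p < 1 → k ≤ 3 → kOK k d →
  ∃ n : ℤ, ka k d + (kD k d).A - d.A = ba k d.b (hh d) + n

/-- LAW4: angle of a shift -/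
def LAW4 : Prop := ∀ (e : ℤ) d, Valid d → d.p < 1 → (shD e d).A = d.A + e * d.p / 2

/-! ## Canonical cells -/

/-- level of a cell (0: cells with the cone point) -/
def lv (f : Fin 24) : ℕ :=
  if f.1 < 5 then 0 else if f.1 < 10 then 1 else if f.1 < 12 then 2 else if f.1 < 13 then 3
  else if f.1 < 17 then 0 else if f.1 < 21 then 1 else if f.1 < 23 then 2 else 3

/-- cells whose window is in the first letter -/
def fst (f : Fin 24) : Bool := decide (f.1 ∈ [0, 5, 10, 12, 13, 17, 21, 23])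

/-- canonical points.  The slots `0, ..., lv f - 1` are the letters at level 0, the slot `lv f` is the second copy of
the letter of the window. -/
def Can (f : Fin 24) (P : Fin 5 → ℝ) : Prop :=
  (∀ s : Fin 5, s.1 + 1 = lv f → 0 < P s) ∧
  ((∀ s : Fin 5, s.1 = lv f → 0 < P s) ∨ (fst f = true ∧ ∀ s : Fin 5, 4 ≤ tb f s % 8 → P s = 0))

/-- CAN: every point is connected with a canonical point by gluings of kind 0 -/
def CAN : Prop := ∀ f P, Sim P → ∃ g Q, Sim Q ∧ Can g Q ∧ ∃ e : ℤ, RM f P (-(e * (ed f P).p / 2)) g Q ∧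
  ed g Q = shD e (ed f P)

/-- UNI: canonical points are determined by the data -/
def UNI : Prop := ∀ f P g Q, Sim P → Sim Q → Can f P → Can g Q → ∀ e : ℤ, ed g Q = shD e (ed f P) →
  f = g ∧ P = Q ∧ (e = 0 ∨ (ed f P).w = 0)

/-- LET: in a canonical cell a letter of weight zero has exactly one slot, and crossing it is the step of this letter -/
def LET : Prop := ∀ f P, Sim P → Can f P → (ed f P).p < 1 → ∀ k, 1 ≤ k → k ≤ 3 → kOK k (ed f P) →
  ∃ a, P a = 0 ∧ kd f a = k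

/-- CONE: the cells at the cone point -/
def CONE : Prop := ∀ f g P Q, Sim P → Sim Q → (ed f P).p = 1 → (ed g Q).p = 1 → ∀ m : ℤ, RM f P (m / 2) g Q

/-! ## Norms -/

/-- MAG -/
def MAG : Prop := ∀ d d' (l : ℝ), Valid d → Valid d' → d.b = d'.b → d.p < 1 → d'.p < 1 → hh d = hh d' → 0 < l →
  d'.p + d'.w / 2 = l * (d.p + d.w / 2) → d'.w0 + d'.w / 2 = l * (d.w0 + d.w / 2) →
  d'.p = d.p ∧ d'.al = d.al ∧ d'.be = d.be ∧ l = 1

/-- MAGS -/
def MAGS : Prop := ∀ b h (r : ℝ), Sim h → 0 ≤ r → ∃ d, Valid d ∧ d.b = b ∧ d.p < 1 ∧ d.T = 0 ∧ hh d = h ∧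
  0 < d.w0 + d.w / 2 ∧ d.p + d.w / 2 = r * (d.w0 + d.w / 2)

/-- CONT -/
def CONT : Prop := (∀ f, ContinuousOn (fun P => UE (ed f P)) {P | Sim P}) ∧ ∀ f P, Sim P → UE (ed f P) ≠ 0

end Pool.Agent.H2.G1
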