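import Pool.Agent.H95.TB.Hopf

/-!
# The weighted quotient `(S³ × S⁵)/S¹` with the weights `(1,1;2,3,4)` is the Hopf quotient `HopfSphere 3`
-/

namespace Pool.Agent.H2.G1

open Pool.Agent.H95.TB
open scoped ComplexConjugate

/-- `q` is obtained from `p` by multiplying the first point by `z`, `|z| = 1`, and the coordinate `k` of the second
point by `z ^ a k` -/
def WRel {m : ℕ} (a : Fin m → ℕ) (p q : SC 2 × SC m) : Prop :=
  ∃ z : ℂ, ‖z‖ = 1 ∧ (∀ j, q.1.1 j = z * p.1.1 j) ∧ ∀ k, q.2.1 k = z ^ a k * p.2.1 k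

/-- the quotient of `S³ × S^(2m-1)` by the circle action with the weights `1` on `S³` and `a k` on the
coordinates of the second factor -/
def WSphere {m : ℕ} (a : Fin m → ℕ) : Type := Quot (WRel a)

instance {m : ℕ} (a : Fin m → ℕ) : TopologicalSpace (WSphere a) :=
  inferInstanceAs (TopologicalSpace (Quot (WRel a)))

abbrev E2 := EuclideanSpace ℂ (Fin 2)
abbrev E3 := EuclideanSpace ℂ (Fin 3)

/-- normalisation -/
noncomputable def nrm (y : E3) (h : y ≠ 0) : SC 3 :=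
  ⟨(‖y‖⁻¹ : ℝ) • y, by
    rw [mem_sphere_zero_iff_norm, norm_smul, norm_inv, norm_norm, inv_mul_cancel₀ (norm_ne_zero_iff.2 h)]⟩

/-- a fibrewise isomorphism gives a homeomorphism of the quotients of the sphere bundles -/
theorem quot_homeo {R S : SC 2 × SC 3 → SC 2 × SC 3 → Prop} (F F' : E2 → E3 → E3)
    (hF : Continuous fun p : SC 2 × SC 3 => F p.1.1 p.2.1) (hF' : Continuous fun p : SC 2 × SC 3 => F' p.1.1 p.2.1)
    (sF : ∀ z (c : ℝ) x, F z (c • x) = c • F z x) (sF' : ∀ z (c : ℝ) x, F' z (c • x) = c • F' z x)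
    (h1 : ∀ z x, ‖z‖ = 1 → F' z (F z x) = (x : E3) ∧ F z (F' z x) = x)
    (hR : ∀ (z z' : SC 2) (x x' : SC 3) (y y' : SC 3) (c c' : ℝ), 0 < c → 0 < c' → R (z, x) (z', x') →
      y.1 = c • F z.1 x.1 → y'.1 = c' • F z'.1 x'.1 → S (z, y) (z', y'))
    (hS : ∀ (z z' : SC 2) (x x' : SC 3) (y y' : SC 3) (c c' : ℝ), 0 < c → 0 < c' → S (z, x) (z', x') →
      y.1 = c • F' z.1 x.1 → y'.1 = c' • F' z'.1 x'.1 → R (z, y) (z', y')) :
    Nonempty (Quot R ≃ₜ Quot S) := by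
  have nz : ∀ z x, ‖z‖ = 1 → x ≠ 0 → F z x ≠ 0 := by
    intro z x hz hx h
    apply hx
    rw [← (h1 z x hz).1, h]
    have := sF' z 0 0
    rwa [zero_smul, zero_smul] at this
  have nz' : ∀ z x, ‖z‖ = 1 → x ≠ 0 → F' z x ≠ 0 := by
    intro z x hz hx h
    apply hx
    rw [← (h1 z x hz).2, h]
    have := sF z 0 0
    rwa [zero_smul, zero_smul] at this
  have n2 : ∀ z : SC 2, ‖z.1‖ = 1 := fun z => mem_sphere_zero_iff_norm.1 z.2
  have n3 : ∀ z : SC 3, ‖z.1‖ = 1 := fun z => mem_sphere_zero_iff_norm.1 z.2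
  have ne3 : ∀ z : SC 3, z.1 ≠ 0 := fun z h => by
    have := n3 z
    rw [h, norm_zero] at this
    exact zero_ne_one this
  let f : SC 2 × SC 3 → SC 2 × SC 3 := fun p => (p.1, nrm (F p.1.1 p.2.1) (nz _ _ (n2 _) (ne3 _)))
  let g : SC 2 × SC 3 → SC 2 × SC 3 := fun p => (p.1, nrm (F' p.1.1 p.2.1) (nz' _ _ (n2 _) (ne3 _)))
  have cf : Continuous f := by
    refine Continuous.prodMk continuous_fst (Continuous.subtype_mk ?_ _)
    exact Continuous.smul (Continuous.inv₀ hF.norm fun p => norm_ne_zero_iff.2 (nz _ _ (n2 _) (ne3 _))) hF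
  have cg : Continuous g := by
    refine Continuous.prodMk continuous_fst (Continuous.subtype_mk ?_ _)
    exact Continuous.smul (Continuous.inv₀ hF'.norm fun p => norm_ne_zero_iff.2 (nz' _ _ (n2 _) (ne3 _))) hF'
  have pos : ∀ y : E3, y ≠ 0 → 0 < ‖y‖⁻¹ := fun y h => inv_pos.2 (norm_pos_iff.2 h)
  have fg : ∀ p, f (g p) = p := by
    intro p
    refine Prod.ext rfl (Subtype.ext ?_)
    have hb := nz' _ _ (n2 p.1) (ne3 p.2)
    have e : F p.1.1 ((‖F' p.1.1 p.2.1‖⁻¹ : ℝ) • F' p.1.1 p.2.1) = (‖F' p.1.1 p.2.1‖⁻¹ : ℝ) • p.2.1 := by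
      rw [sF, (h1 _ _ (n2 _)).2]
    change (‖F p.1.1 ((‖F' p.1.1 p.2.1‖⁻¹ : ℝ) • F' p.1.1 p.2.1)‖⁻¹ : ℝ) •
      F p.1.1 ((‖F' p.1.1 p.2.1‖⁻¹ : ℝ) • F' p.1.1 p.2.1) = p.2.1
    rw [e, norm_smul, n3, mul_one, smul_smul, Real.norm_of_nonneg (pos _ hb).le,
      inv_mul_cancel₀ (ne_of_gt (pos _ hb)), one_smul]
  have gf : ∀ p, g (f p) = p := by
    intro p
    refine Prod.ext rfl (Subtype.ext ?_)
    have hb := nz _ _ (n2 p.1) (ne3 p.2)
    have e : F' p.1.1 ((‖F p.1.1 p.2.1‖⁻¹ : ℝ) • F p.1.1 p.2.1) = (‖F p.1.1 p.2.1‖⁻¹ : ℝ) • p.2.1 := by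
      rw [sF', (h1 _ _ (n2 _)).1]
    change (‖F' p.1.1 ((‖F p.1.1 p.2.1‖⁻¹ : ℝ) • F p.1.1 p.2.1)‖⁻¹ : ℝ) •
      F' p.1.1 ((‖F p.1.1 p.2.1‖⁻¹ : ℝ) • F p.1.1 p.2.1) = p.2.1
    rw [e, norm_smul, n3, mul_one, smul_smul, Real.norm_of_nonneg (pos _ hb).le,
      inv_mul_cancel₀ (ne_of_gt (pos _ hb)), one_smul]
  have rf : ∀ p q, R p q → S (f p) (f q) := fun p q h =>
    hR p.1 q.1 p.2 q.2 _ _ _ _ (pos _ (nz _ _ (n2 _) (ne3 _))) (pos _ (nz _ _ (n2 _) (ne3 _))) h rfl rfl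
  have rg : ∀ p q, S p q → R (g p) (g q) := fun p q h =>
    hS p.1 q.1 p.2 q.2 _ _ _ _ (pos _ (nz' _ _ (n2 _) (ne3 _))) (pos _ (nz' _ _ (n2 _) (ne3 _))) h rfl rfl
  exact ⟨{
    toFun := Quot.map f rf
    invFun := Quot.map g rg
    left_inv := by
      rintro ⟨p⟩
      exact congrArg (Quot.mk R) (gf p)
    right_inv := by
      rintro ⟨p⟩
      exact congrArg (Quot.mk S) (fg p)
    continuous_toFun := continuous_quot_lift _ (continuous_quot_mk.comp cf)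
    continuous_invFun := continuous_quot_lift _ (continuous_quot_mk.comp cg) }⟩

/-- the determinant -/
noncomputable def dt (z : E2) : ℂ := (z 0 * conj (z 0)) ^ 3 + (z 1 * conj (z 1)) ^ 4

lemma sq_one {z : E2} (h : ‖z‖ = 1) : z 0 * conj (z 0) + z 1 * conj (z 1) = 1 := by
  have := EuclideanSpace.norm_sq_eq z
  rw [h, Fin.sum_univ_two] at this
  rw [Complex.mul_conj, Complex.mul_conj, Complex.normSq_eq_norm_sq, Complex.normSq_eq_norm_sq, ← Complex.ofReal_add,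
    ← this]
  norm_num

lemma dt_eq (z : E2) : dt z = ((Complex.normSq (z 0) ^ 3 + Complex.normSq (z 1) ^ 4 : ℝ) : ℂ) := by
  unfold dt
  rw [Complex.mul_conj, Complex.mul_conj]
  push_cast
  rfl

lemma dt_ne {z : E2} (h : z ≠ 0) : dt z ≠ 0 := by
  rw [dt_eq, Complex.ofReal_ne_zero]
  have p0 := Complex.normSq_nonneg (z 0)
  have p1 := Complex.normSq_nonneg (z 1)
  intro h0
  have a0 : Complex.normSq (z 0) ^ 3 = 0 := by
    have := pow_nonneg p0 3
    have := pow_nonneg p1 4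
    linarith
  have a1 : Complex.normSq (z 1) ^ 4 = 0 := by
    have := pow_nonneg p0 3
    have := pow_nonneg p1 4
    linarith
  apply h
  ext j
  fin_cases j
  · exact Complex.normSq_eq_zero.1 (pow_eq_zero_iff (by norm_num) |>.1 a0)
  · exact Complex.normSq_eq_zero.1 (pow_eq_zero_iff (by norm_num) |>.1 a1)


/-- the fibrewise isomorphism `L² ⊕ L³ ⊕ L⁴ → L ⊕ L ⊕ L`, composed with the conjugation of the middle coordinate -/
noncomputable def FF (z : E2) (x : E3) : E3 :=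
  !₂[conj (z 0) * x 0 + z 1 * (conj (z 1) ^ 4 * x 2 + z 0 ^ 3 * conj (x 1)),
     -conj (z 1) * x 0 + z 0 * (conj (z 1) ^ 4 * x 2 + z 0 ^ 3 * conj (x 1)),
     conj (z 0) ^ 3 * x 2 - z 1 ^ 4 * conj (x 1)]

/-- the inverse of `FF z` for `‖z‖ = 1` -/
noncomputable def GG (z : E2) (y : E3) : E3 :=
  !₂[z 0 * y 0 - z 1 * y 1,
     conj ((-conj (z 1) ^ 4 * y 2 + conj (z 0) ^ 3 * (conj (z 1) * y 0 + conj (z 0) * y 1)) / dt z),
     (z 0 ^ 3 * y 2 + z 1 ^ 4 * (conj (z 1) * y 0 + conj (z 0) * y 1)) / dt z]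

lemma norm_unit_mul {x y : E3} (u : Fin 3 → ℂ) (hu : ∀ k, ‖u k‖ = 1) (h : ∀ k, y k = u k * x k) : ‖y‖ = ‖x‖ := by
  rw [EuclideanSpace.norm_eq, EuclideanSpace.norm_eq]
  congr 1
  refine Finset.sum_congr rfl fun k _ => ?_
  rw [h, norm_mul, hu, one_mul]

lemma scal_eq {x x' y y' : E3} {c c' : ℝ} (hc : 0 < c) (hc' : 0 < c') (h : y = c • x) (h' : y' = c' • x')
    (n : ‖y‖ = 1) (n' : ‖y'‖ = 1) (e : ‖x'‖ = ‖x‖) : c = c' := by
  rw [h, norm_smul, Real.norm_of_nonneg hc.le] at n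
  rw [h', norm_smul, Real.norm_of_nonneg hc'.le, e] at n'
  have hx : ‖x‖ ≠ 0 := by
    intro h0
    rw [h0, mul_zero] at n
    exact zero_ne_one n
  exact mul_right_cancel₀ hx (n.trans n'.symm)

lemma FF_smul (z : E2) (c : ℝ) (x : E3) : FF z (c • x) = c • FF z x := by
  ext k
  fin_cases k <;> simp [FF] <;> ring

lemma GG_smul (z : E2) (c : ℝ) (x : E3) : GG z (c • x) = c • GG z x := by
  ext k
  fin_cases k <;> simp [GG] <;> ring

/-- the two algebraic identities -/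
lemma alg1 {a b a' b' v y D : ℂ} (hD : D = (a * a') ^ 3 + (b * b') ^ 4) (h : D ≠ 0) :
    b' ^ 4 * ((a ^ 3 * y + b ^ 4 * v) / D) + a ^ 3 * ((-b' ^ 4 * y + a' ^ 3 * v) / D) = v := by
  field_simp
  rw [hD]; ring

lemma alg2 {a b a' b' v y D : ℂ} (hD : D = (a * a') ^ 3 + (b * b') ^ 4) (h : D ≠ 0) :
    a' ^ 3 * ((a ^ 3 * y + b ^ 4 * v) / D) - b ^ 4 * ((-b' ^ 4 * y + a' ^ 3 * v) / D) = y := by
  field_simp
  rw [hD]; ring

lemma alg3 {a b a' b' x w D : ℂ} (hD : D = (a * a') ^ 3 + (b * b') ^ 4) (h : D ≠ 0) :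
    (-b' ^ 4 * (a' ^ 3 * x - b ^ 4 * w) + a' ^ 3 * (b' ^ 4 * x + a ^ 3 * w)) / D = w := by
  field_simp
  rw [hD]; ring

lemma alg4 {a b a' b' x w D : ℂ} (hD : D = (a * a') ^ 3 + (b * b') ^ 4) (h : D ≠ 0) :
    (a ^ 3 * (a' ^ 3 * x - b ^ 4 * w) + b ^ 4 * (b' ^ 4 * x + a ^ 3 * w)) / D = x := by
  field_simp
  rw [hD]; ring

lemma FF0 (z : E2) (x : E3) :
    FF z x 0 = conj (z 0) * x 0 + z 1 * (conj (z 1) ^ 4 * x 2 + z 0 ^ 3 * conj (x 1)) := rfl
lemma FF1 (z : E2) (x : E3) :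
    FF z x 1 = -conj (z 1) * x 0 + z 0 * (conj (z 1) ^ 4 * x 2 + z 0 ^ 3 * conj (x 1)) := rfl
lemma FF2 (z : E2) (x : E3) : FF z x 2 = conj (z 0) ^ 3 * x 2 - z 1 ^ 4 * conj (x 1) := rfl
lemma GG0 (z : E2) (y : E3) : GG z y 0 = z 0 * y 0 - z 1 * y 1 := rfl
lemma GG1 (z : E2) (y : E3) : GG z y 1 =
    conj ((-conj (z 1) ^ 4 * y 2 + conj (z 0) ^ 3 * (conj (z 1) * y 0 + conj (z 0) * y 1)) / dt z) := rfl
lemma GG2 (z : E2) (y : E3) : GG z y 2 =
    (z 0 ^ 3 * y 2 + z 1 ^ 4 * (conj (z 1) * y 0 + conj (z 0) * y 1)) / dt z := rfl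

lemma FF_GG (z : E2) (h : ‖z‖ = 1) (x : E3) : FF z (GG z x) = x := by
  have hd := dt_ne (z := z) (by rintro rfl; rw [norm_zero] at h; exact zero_ne_one h)
  have hs := sq_one h
  have hd' : dt z = (z 0 * conj (z 0)) ^ 3 + (z 1 * conj (z 1)) ^ 4 := rfl
  have A : conj (z 1) ^ 4 * GG z x 2 + z 0 ^ 3 * conj (GG z x 1) = conj (z 1) * x 0 + conj (z 0) * x 1 := by
    rw [GG2, GG1, Complex.conj_conj]
    exact alg1 hd' hd
  ext k
  fin_cases k
  · change FF z (GG z x) 0 = x 0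
    rw [FF0, A, GG0]
    linear_combination x 0 * hs
  · change FF z (GG z x) 1 = x 1
    rw [FF1, A, GG0]
    linear_combination x 1 * hs
  · change FF z (GG z x) 2 = x 2
    rw [FF2, GG2, GG1, Complex.conj_conj]
    exact alg2 hd' hd

lemma GG_FF (z : E2) (h : ‖z‖ = 1) (x : E3) : GG z (FF z x) = x := by
  have hd := dt_ne (z := z) (by rintro rfl; rw [norm_zero] at h; exact zero_ne_one h)
  have hs := sq_one h
  have hd' : dt z = (z 0 * conj (z 0)) ^ 3 + (z 1 * conj (z 1)) ^ 4 := rfl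
  have A : conj (z 1) * FF z x 0 + conj (z 0) * FF z x 1 = conj (z 1) ^ 4 * x 2 + z 0 ^ 3 * conj (x 1) := by
    rw [FF0, FF1]
    linear_combination (conj (z 1) ^ 4 * x 2 + z 0 ^ 3 * conj (x 1)) * hs
  ext k
  fin_cases k
  · change GG z (FF z x) 0 = x 0
    rw [GG0, FF0, FF1]
    linear_combination x 0 * hs
  · change GG z (FF z x) 1 = x 1
    rw [GG1, A, FF2, alg3 hd' hd, Complex.conj_conj]
  · change GG z (FF z x) 2 = x 2
    rw [GG2, A, FF2]
    exact alg4 hd' hd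

lemma conj_unit {t : ℂ} (h : ‖t‖ = 1) : conj t = t⁻¹ := by
  rw [Complex.inv_def, Complex.normSq_eq_norm_sq, h]
  simp

lemma ne_of_unit {t : ℂ} (h : ‖t‖ = 1) : t ≠ 0 := by
  rintro rfl
  rw [norm_zero] at h
  exact zero_ne_one h

/-- the weights -/
def wts : Fin 3 → ℕ := ![2, 3, 4]

lemma FF_equiv {t : ℂ} (ht : ‖t‖ = 1) {z z' : E2} {x x' : E3} (hz : ∀ j, z' j = t * z j)
    (hx : ∀ k, x' k = t ^ wts k * x k) (k : Fin 3) : FF z' x' k = t * FF z x k := by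
  have hc := conj_unit ht
  have h0 := ne_of_unit ht
  have x0 : x' 0 = t ^ 2 * x 0 := hx 0
  have x1 : x' 1 = t ^ 3 * x 1 := hx 1
  have x2 : x' 2 = t ^ 4 * x 2 := hx 2
  fin_cases k
  · change FF z' x' 0 = t * FF z x 0
    rw [FF0, FF0, hz 0, hz 1, x0, x1, x2]
    simp only [map_mul, map_pow, hc]
    field_simp
  · change FF z' x' 1 = t * FF z x 1
    rw [FF1, FF1, hz 0, hz 1, x0, x1, x2]
    simp only [map_mul, map_pow, hc]
    field_simp
  · change FF z' x' 2 = t * FF z x 2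
    rw [FF2, FF2, hz 0, hz 1, x1, x2]
    simp only [map_mul, map_pow, hc]
    field_simp

lemma dt_equiv {t : ℂ} (ht : ‖t‖ = 1) {z z' : E2} (hz : ∀ j, z' j = t * z j) : dt z' = dt z := by
  have hc := conj_unit ht
  have h0 := ne_of_unit ht
  unfold dt
  rw [hz 0, hz 1]
  simp only [map_mul, hc]
  field_simp

lemma GG_equiv {t : ℂ} (ht : ‖t‖ = 1) {z z' : E2} {x x' : E3} (hz : ∀ j, z' j = t * z j)
    (hx : ∀ k, x' k = t * x k) (k : Fin 3) : GG z' x' k = t ^ wts k * GG z x k := by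
  have hc := conj_unit ht
  have h0 := ne_of_unit ht
  fin_cases k
  · change GG z' x' 0 = t ^ 2 * GG z x 0
    rw [GG0, GG0, hz 0, hz 1, hx 0, hx 1]
    ring
  · change GG z' x' 1 = t ^ 3 * GG z x 1
    rw [GG1, GG1, dt_equiv ht hz, hz 0, hz 1, hx 0, hx 1, hx 2]
    simp only [map_mul, map_pow, hc, map_div₀, map_add, map_neg, Complex.conj_conj, map_inv₀]
    field_simp
  · change GG z' x' 2 = t ^ 4 * GG z x 2
    rw [GG2, GG2, dt_equiv ht hz, hz 0, hz 1, hx 0, hx 1, hx 2]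
    simp only [map_mul, hc]
    field_simp

lemma cont_conj {X : Type*} [TopologicalSpace X] {f : X → ℂ} (h : Continuous f) : Continuous fun x => conj (f x) :=
  Complex.continuous_conj.comp h

lemma cont_vec3 {X : Type*} [TopologicalSpace X] {f : X → E3} (h : ∀ k, Continuous fun x => f x k) : Continuous f := by
  have : f = fun x => WithLp.toLp 2 (fun k => f x k) := rfl
  rw [this]
  exact (PiLp.continuous_toLp 2 _).comp (continuous_pi h)

lemma FF_cont : Continuous fun p : SC 2 × SC 3 => FF p.1.1 p.2.1 := by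
  have a : ∀ j, Continuous fun p : SC 2 × SC 3 => p.1.1 j := fun j => by fun_prop
  have b : ∀ k, Continuous fun p : SC 2 × SC 3 => p.2.1 k := fun k => by fun_prop
  have a' := fun j => cont_conj (a j)
  have b' := fun j => cont_conj (b j)
  refine cont_vec3 fun k => ?_
  fin_cases k
  · change Continuous fun p : SC 2 × SC 3 => FF p.1.1 p.2.1 0
    simp only [FF0]
    exact ((a' 0).mul (b 0)).add ((a 1).mul ((((a' 1).pow 4).mul (b 2)).add (((a 0).pow 3).mul (b' 1))))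
  · change Continuous fun p : SC 2 × SC 3 => FF p.1.1 p.2.1 1
    simp only [FF1]
    exact (((a' 1).neg).mul (b 0)).add ((a 0).mul ((((a' 1).pow 4).mul (b 2)).add (((a 0).pow 3).mul (b' 1))))
  · change Continuous fun p : SC 2 × SC 3 => FF p.1.1 p.2.1 2
    simp only [FF2]
    exact (((a' 0).pow 3).mul (b 2)).sub (((a 1).pow 4).mul (b' 1))

lemma n2 (z : SC 2) : ‖z.1‖ = 1 := mem_sphere_zero_iff_norm.1 z.2
lemma n3 (z : SC 3) : ‖z.1‖ = 1 := mem_sphere_zero_iff_norm.1 z.2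

lemma GG_cont : Continuous fun p : SC 2 × SC 3 => GG p.1.1 p.2.1 := by
  have a : ∀ j, Continuous fun p : SC 2 × SC 3 => p.1.1 j := fun j => by fun_prop
  have b : ∀ k, Continuous fun p : SC 2 × SC 3 => p.2.1 k := fun k => by fun_prop
  have a' := fun j => cont_conj (a j)
  have cd : Continuous fun p : SC 2 × SC 3 => dt p.1.1 := by
    unfold dt
    exact (((a 0).mul (a' 0)).pow 3).add (((a 1).mul (a' 1)).pow 4)
  have hd : ∀ p : SC 2 × SC 3, dt p.1.1 ≠ 0 := fun p => dt_ne (by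
    intro h
    have := n2 p.1
    rw [h, norm_zero] at this
    exact zero_ne_one this)
  have v : Continuous fun p : SC 2 × SC 3 => conj (p.1.1 1) * p.2.1 0 + conj (p.1.1 0) * p.2.1 1 :=
    ((a' 1).mul (b 0)).add ((a' 0).mul (b 1))
  refine cont_vec3 fun k => ?_
  fin_cases k
  · change Continuous fun p : SC 2 × SC 3 => GG p.1.1 p.2.1 0
    simp only [GG0]
    exact ((a 0).mul (b 0)).sub ((a 1).mul (b 1))
  · change Continuous fun p : SC 2 × SC 3 => GG p.1.1 p.2.1 1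
    simp only [GG1]
    exact cont_conj (((((a' 1).pow 4).neg.mul (b 2)).add (((a' 0).pow 3).mul v)).div cd hd)
  · change Continuous fun p : SC 2 × SC 3 => GG p.1.1 p.2.1 2
    simp only [GG2]
    exact ((((a 0).pow 3).mul (b 2)).add (((a 1).pow 4).mul v)).div cd hd

/-- **T1.** `(S³ × S⁵)/S¹` with the weights `(1,1;2,3,4)` is homeomorphic to `(S³ × S⁵)/S¹` with the weights
`(1,1;1,1,1)`. -/
theorem wSphere_homeo : Nonempty (WSphere wts ≃ₜ HopfSphere 3) := by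
  refine quot_homeo (R := WRel wts) (S := HopfRel 3) FF GG FF_cont GG_cont FF_smul GG_smul
    (fun z x h => ⟨GG_FF z h x, FF_GG z h x⟩) ?_ ?_
  · rintro z z' x x' y y' c c' hc hc' ⟨t, ht, h1, h2⟩ hy hy'
    have e := FF_equiv ht h1 h2
    have ec : c = c' := scal_eq hc hc' hy hy' (n3 _) (n3 _) (norm_unit_mul (fun _ => t) (fun _ => ht) e)
    refine ⟨t, ht, ?_, ?_⟩
    · ext j; exact h1 j
    · ext k
      change y'.1 k = t * y.1 k
      rw [hy', hy, ← ec]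
      change (c : ℂ) * FF z'.1 x'.1 k = t * ((c : ℂ) * FF z.1 x.1 k)
      rw [e k]
      ring
  · rintro z z' x x' y y' c c' hc hc' ⟨t, ht, h1, h2⟩ hy hy'
    have h1' : ∀ j, z'.1 j = t * z.1 j := fun j => congrArg (fun v : E2 => v j) h1
    have h2' : ∀ j, x'.1 j = t * x.1 j := fun j => congrArg (fun v : E3 => v j) h2
    have e := GG_equiv ht h1' h2'
    have ec : c = c' := scal_eq hc hc' hy hy' (n3 _) (n3 _)
      (norm_unit_mul (fun k => t ^ wts k) (fun k => by rw [norm_pow, ht, one_pow]) e)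
    refine ⟨t, ht, h1', fun k => ?_⟩
    rw [hy', hy, ← ec]
    change (c : ℂ) * GG z'.1 x'.1 k = t ^ wts k * ((c : ℂ) * GG z.1 x.1 k)
    rw [e k]
    ring

end Pool.Agent.H2.G1
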